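import Pool.Agent.Q193.LT.Coh

/-!
# Smooth projective schemes, and classes of the cohomology with compact supports
-/

set_option autoImplicit false

open CategoryTheory CategoryTheory.Limits AlgebraicGeometry Pool.Agent.Y116.UV Pool.Agent.Z125.UN

universe v u v' u'

namespace Pool.Agent.Q193.LT

section

attribute [local instance] MvPolynomial.gradedAlgebra

/-- The projective space of dimension `n` over the field `k`. -/
noncomputable def projSpace (k : Type) [Field k] (n : ℕ) : Sch k :=
  Over.mk (Proj.toSpecZero (MvPolynomial.homogeneousSubmodule (Fin (n + 1)) k) ≫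
    Spec.map (CommRingCat.ofHom
      (algebraMap k (MvPolynomial.homogeneousSubmodule (Fin (n + 1)) k 0))))

end

/-- `X` is smooth and projective over the field `k`: it is smooth over `k` and a closed subscheme of a
projective space (so it is separated and of finite type, the condition `ft`). -/
structure SmoothProj {k : Type} [Field k] (X : Sch k) : Prop where
  smooth : Smooth X.hom
  proj : ∃ (n : ℕ) (i : X ⟶ projSpace k n), IsClosedImmersion i.left
  ft : FT True X

/-- Smooth projective schemes generate the cohomology with compact supports, in each dimension: a Serre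
class that is stable under Tate twists and contains the cohomology of all smooth projective schemes of
dimension at most `n` contains the cohomology with compact supports of all separated schemes of finite
type of dimension at most `n`. (By resolution of singularities and induction on the dimension.) -/
def Generated {k : Type} [Field k] {A : Type u} [Category.{v} A] [Abelian A]
    (D : CompactData k A) : Prop :=
  ∀ (n : ℕ) (S : A → Prop), IsTateSerre D S →
    (∀ Y : Sch k, SmoothProj Y → topologicalKrullDim Y.left ≤ n → ∀ i, S (D.H i Y)) →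
    ∀ X : Sch k, FT True X → topologicalKrullDim X.left ≤ n → ∀ i, S (D.H i X)

section

variable {k : Type} [Field k] [PerfectField k] {A : Type u} [Category.{v} A] [Abelian A]
  {D : CompactData k A} {S : A → Prop}

/-- Smooth projective schemes of dimension at most `n`, and the trilinear forms with a block of at
most `n + 2` variables. -/
theorem proj_iff (hD : IsCompact D) (hg : Generated D) (hS : IsTateSerre D S)
    (h1 : ∀ i, S (D.H i (aff k k))) (n : ℕ) :
    (∀ Y : Sch k, SmoothProj Y → topologicalKrullDim Y.left ≤ n → ∀ i, S (D.H i Y)) ↔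
      ∀ (a b c : ℕ) (T : Fin a → Fin b → Fin c → k), (a ≤ n + 2 ∨ b ≤ n + 2 ∨ c ≤ n + 2) →
        ∀ i, S (D.H i (hypS T)) := by
  rw [← dim_iff (bnd_compact hD hS h1) n]
  exact ⟨fun h => hg n S hS h, fun h Y hY hn => h Y hY.ft hn⟩

/-- All smooth projective schemes, and all trilinear forms. -/
theorem proj_all_iff (hD : IsCompact D) (hg : Generated D) (hS : IsTateSerre D S)
    (h1 : ∀ i, S (D.H i (aff k k))) :
    (∀ Y : Sch k, SmoothProj Y → ∀ i, S (D.H i Y)) ↔
      ∀ (a b c : ℕ) (T : Fin a → Fin b → Fin c → k), ∀ i, S (D.H i (hypS T)) := by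
  constructor
  · intro h a b c T
    exact (proj_iff hD hg hS h1 a).mp (fun Y hY _ => h Y hY) a b c T (Or.inl (by omega))
  · intro h Y hY
    exact (all_iff (bnd_compact hD hS h1)).mpr h Y hY.ft

/-- Over a prime field: all smooth projective schemes, and the tripartite hypergraphs. -/
theorem proj_graph_iff (hk : Frac k) (hD : IsCompact D) (hg : Generated D) (hS : IsTateSerre D S)
    (h1 : ∀ i, S (D.H i (aff k k))) :
    (∀ Y : Sch k, SmoothProj Y → ∀ i, S (D.H i Y)) ↔
      ∀ (a b c : ℕ) (H : Finset (Fin a × Fin b × Fin c)), ∀ i, S (D.H i (tripS k H)) := by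
  constructor
  · intro h a b c H
    exact (all_iff (bnd_compact hD hS h1)).mpr ((proj_all_iff hD hg hS h1).mp h) _ (ft_aff True)
  · intro h Y hY
    exact universal_frac hk (bnd_compact hD hS h1).toUni h Y hY.ft

end

section full

variable {R : Type} [CommRing R] {A : Type u} [Category.{v} A] [Abelian A]
  {B : Type u'} [Category.{v'} B] [Preadditive B]

/-- All morphisms from the unit object to the Tate twists of `M` after the realization `F` come from
morphisms before the realization. -/
def FullAt (D : CompactData R A) (one : A) (F : A ⥤ B) (M : A) : Prop :=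
  ∀ (a : ℤ) (g : F.obj one ⟶ F.obj ((D.tw a).obj M)), ∃ f : one ⟶ (D.tw a).obj M, F.map f = g

variable {D : CompactData R A} {one : A} {F : A ⥤ B}

/-- This is a Serre class, if the category is semisimple. -/
theorem fullAt_serre (hD : IsCompact D) [F.Additive]
    (hss : ∀ {X Y : A} (f : X ⟶ Y), Mono f → ∃ r : Y ⟶ X, f ≫ r = 𝟙 X) :
    IsTateSerre D (FullAt D one F) := by
  have hta := hD.twAdditive
  have h := serre_of_semisimple (S := FullAt D one F) hss ?_ ?_ ?_
  · refine { toIsSerre := h, twist := ?_ }
    intro a M hM b g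
    obtain ⟨e⟩ := hD.twAdd a b
    let e' : (D.tw b).obj ((D.tw a).obj M) ≅ (D.tw (a + b)).obj M := e.app M
    obtain ⟨f, hf⟩ := hM (a + b) (g ≫ F.map e'.hom)
    refine ⟨f ≫ e'.inv, ?_⟩
    rw [F.map_comp, hf, Category.assoc, ← F.map_comp, e'.hom_inv_id, F.map_id, Category.comp_id]
  · intro X hX a g
    refine ⟨0, ?_⟩
    have h1 : IsZero ((D.tw a).obj X) := (D.tw a).map_isZero hX
    have h2 : IsZero (F.obj ((D.tw a).obj X)) := F.map_isZero h1
    exact h2.eq_of_tgt _ _
  · intro X Y i r hir hY a g
    obtain ⟨f, hf⟩ := hY a (g ≫ F.map ((D.tw a).map i))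
    refine ⟨f ≫ (D.tw a).map r, ?_⟩
    rw [F.map_comp, hf, Category.assoc, ← F.map_comp, ← (D.tw a).map_comp, hir,
      (D.tw a).map_id, F.map_id, Category.comp_id]
  · intro X Y hX hY a g
    obtain ⟨f1, hf1⟩ := hX a (g ≫ F.map ((D.tw a).map biprod.fst))
    obtain ⟨f2, hf2⟩ := hY a (g ≫ F.map ((D.tw a).map biprod.snd))
    refine ⟨f1 ≫ (D.tw a).map biprod.inl + f2 ≫ (D.tw a).map biprod.inr, ?_⟩
    rw [F.map_add, F.map_comp, F.map_comp, hf1, hf2, Category.assoc, Category.assoc,
      ← F.map_comp, ← F.map_comp, ← (D.tw a).map_comp, ← (D.tw a).map_comp,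
      ← Preadditive.comp_add, ← F.map_add, ← (D.tw a).map_add, biprod.total,
      (D.tw a).map_id, F.map_id, Category.comp_id]

end full

end Pool.Agent.Q193.LT
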