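import Pool.Agent.Q193.LT.Facts

/-!
# Critical motives: values of `L`-functions at `0` and Deligne's periods
-/

set_option autoImplicit false

open CategoryTheory CategoryTheory.Limits AlgebraicGeometry Pool.Agent.Y116.UV Pool.Agent.Z125.UN

universe v u

namespace Pool.Agent.Q193.LT

/-- What is used about a category of motives over the field `k` (motives for absolute Hodge cycles, or
for motivated cycles, possibly with coefficients in a number field), with the Tate twists `D.tw` and
the graded objects `D.H i X` of the weight filtration of the cohomology with compact supports (for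
smooth projective `X` this is the motive `h^i(X)`):

* `compact`: long exact sequences, affine bundles, products with `𝔾_m` (see `IsCompact`);
* `generated`: smooth projective varieties generate (see `Generated`), by resolution of
  singularities;
* `semisimple`: every monomorphism splits (Deligne, André). -/
structure IsMotives {k : Type} [Field k] {M : Type u} [Category.{v} M] [Abelian M]
    (D : CompactData k M) : Prop where
  compact : IsCompact D
  generated : Generated D
  semisimple : ∀ {X Y : M} (f : X ⟶ Y), Mono f → ∃ r : Y ⟶ X, f ≫ r = 𝟙 X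

/-- For motives over `ℚ` with coefficients in a number field: the critical motives, the value `L(N, 0)`
of the `L`-function at `0` and Deligne's period `c⁺(N)`, computed in some chosen bases; both are
elements of the ring `EC`, which is `E ⊗ ℂ` for the field `E` of coefficients. -/
structure CritData (M : Type u) (EC : Type) where
  /-- `N` is pure and critical -/
  crit : M → Prop
  /-- `L(N, 0)` -/
  L : M → EC
  /-- `c⁺(N)` -/
  c : M → EC

variable {M : Type u} [Category.{v} M] [Abelian M] {E : Type} [Field E] {EC : Type} [CommRing EC]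
  [Algebra E EC]

/-- The standard properties: criticality only depends on the Hodge numbers and the action of the
infinite Frobenius, `L`-functions are multiplicative in direct sums, and so are the periods, up to
elements of `Eˣ`. -/
structure IsCrit (E : Type) [Field E] {EC : Type} [CommRing EC] [Algebra E EC]
    (C : CritData M EC) : Prop where
  iso : ∀ {N N' : M}, (N ≅ N') → (C.crit N → C.crit N') ∧ C.L N = C.L N' ∧
    ∃ u : E, u ≠ 0 ∧ C.c N = u • C.c N'
  zero : ∀ {N : M}, IsZero N → C.L N = 1 ∧ ∃ u : E, u ≠ 0 ∧ C.c N = u • (1 : EC)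
  sum : ∀ {N N' : M}, C.crit (N ⊞ N') → C.crit N ∧ C.crit N' ∧
    C.L (N ⊞ N') = C.L N * C.L N' ∧ ∃ u : E, u ≠ 0 ∧ C.c (N ⊞ N') = u • (C.c N * C.c N')

/-- **Deligne's conjecture for the motive `N`**: if `N` is critical, then `L(N, 0) = e c⁺(N)` for some
`e ∈ E`. -/
def Deligne (E : Type) [Field E] {EC : Type} [CommRing EC] [Algebra E EC] (C : CritData M EC)
    (N : M) : Prop :=
  C.crit N → ∃ e : E, C.L N = e • C.c N

theorem deligne_serre {R : Type} [CommRing R] {D : CompactData R M} (hD : IsCompact D)
    (hss : ∀ {X Y : M} (f : X ⟶ Y), Mono f → ∃ r : Y ⟶ X, f ≫ r = 𝟙 X) {C : CritData M EC}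
    (hC : IsCrit E C) : IsTateSerre D (Facts D (Deligne E C)) := by
  refine facts_serre hD hss ?_ ?_ ?_
  · intro X hX _
    obtain ⟨h1, u, hu, h2⟩ := hC.zero hX
    exact ⟨u⁻¹, by rw [h1, h2, smul_smul, inv_mul_cancel₀ hu, one_smul]⟩
  · intro X Y e hX hY
    obtain ⟨h1, h2, u, hu, h3⟩ := hC.iso e
    obtain ⟨x, hx⟩ := hX ((hC.iso e.symm).1 hY)
    exact ⟨x * u, by rw [← h2, hx, h3, smul_smul]⟩
  · intro X Y hX hY h
    obtain ⟨h1, h2, h3, u, hu, h4⟩ := hC.sum h
    obtain ⟨x, hx⟩ := hX h1
    obtain ⟨y, hy⟩ := hY h2
    refine ⟨x * y * u⁻¹, ?_⟩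
    rw [h3, hx, hy, h4, smul_smul, mul_assoc, inv_mul_cancel₀ hu, mul_one, smul_mul_smul_comm]

end Pool.Agent.Q193.LT
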