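import Pool.Agent.Q193.LT.Full

/-!
# Motives over a field with an `ℓ`-adic realization
-/

set_option autoImplicit false

open CategoryTheory CategoryTheory.Limits AlgebraicGeometry Pool.Agent.Y116.UV Pool.Agent.Z125.UN

universe w v u

namespace Pool.Agent.Q193.LT

/-- The group algebra over `ℚ_ℓ` of the absolute Galois group of `k`. A module over it is a
`ℚ_ℓ`-linear representation of the Galois group; submodules are the stable subspaces. -/
abbrev GalAlg (k : Type) [Field k] (ℓ : ℕ) [Fact ℓ.Prime] : Type :=
  MonoidAlgebra ℚ_[ℓ] (Field.absoluteGaloisGroup k)

/-- What is used about a category `M` of motives over the field `k` (motives for motivated cycles, or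
motives for absolute Hodge cycles), its `ℓ`-adic realization `ω`, the Tate twists `D.tw` and the graded
objects `D.H i X` of the weight filtration of the cohomology with compact supports:

* `compact`: long exact sequences, affine bundles, products with `𝔾_m` (see `IsCompact`);
* `generated`: smooth projective varieties generate (see `Generated`), by resolution of
  singularities;
* `semisimple`: every monomorphism of `M` splits (Deligne, André);
* `additive`: the realization is additive. -/
structure IsMotivic {k : Type} [Field k] {M : Type u} [Category.{v} M] [Abelian M]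
    (D : CompactData k M) {ℓ : ℕ} [Fact ℓ.Prime] (ω : M ⥤ ModuleCat.{w} (GalAlg k ℓ)) : Prop where
  compact : IsCompact D
  generated : Generated D
  semisimple : ∀ {X Y : M} (f : X ⟶ Y), Mono f → ∃ r : Y ⟶ X, f ≫ r = 𝟙 X
  additive : ω.Additive

/-- Every Tate class of the Tate twists of the motive `N` is a linear combination with coefficients in
`ℚ_ℓ` of realizations of morphisms of motives. A Tate class of `N(a)` is a homomorphism of
representations from `ω(1)` (the trivial representation) to `ω(N(a))`, that is an invariant vector. -/
def TateAt {k : Type} [Field k] {M : Type u} [Category.{v} M] [Abelian M]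
    (D : CompactData k M) (one : M) {ℓ : ℕ} [Fact ℓ.Prime] (ω : M ⥤ ModuleCat.{w} (GalAlg k ℓ))
    (N : M) : Prop :=
  SpanAt ℚ_[ℓ] D (𝟭 M) one ω N

section

variable {k : Type} [Field k] {M : Type u} [Category.{v} M] [Abelian M]
    {D : CompactData k M} {one : M} {ℓ : ℕ} [Fact ℓ.Prime] {ω : M ⥤ ModuleCat.{w} (GalAlg k ℓ)}

lemma IsMotivic.tate (h : IsMotivic D ω) : IsTateSerre D (TateAt D one ω) := by
  have := h.additive
  exact spanAt_serre (Φ := 𝟭 M) h.compact h.semisimple

lemma IsMotivic.semi (h : IsMotivic D ω) : IsTateSerre D (SemiAt D ω) := by
  have := h.additive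
  exact semiAt_serre h.compact h.semisimple

end

end Pool.Agent.Q193.LT
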