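import Pool.Agent.Q193.LT.Sums
import Pool.Agent.Q193.LT.Crit

/-!
# Properties of abelian varieties, and trilinear forms with a block of three variables
-/

set_option autoImplicit false

open CategoryTheory CategoryTheory.Limits AlgebraicGeometry Pool.Agent.Y116.UV Pool.Agent.Z125.UN

universe v u

namespace Pool.Agent.Q193.LT

variable {k : Type} [Field k] {M : Type u} [Category.{v} M] [Abelian M]

/-- Known facts about the abelian varieties `A` over `k` (the predicate `Ab`), their motives
`D.H 1 A = h^1(A)` and a property `Pr` of abelian varieties.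

* `zero`: the property is true for abelian varieties of dimension zero;
* `split`: a decomposition of the motive `h^1(A)` comes from an isogeny `A ∼ B × C`, and the property
  for `B` and `C` implies the property for `A`;
* `jacobian`: `h^1(A)` is a direct factor of the motive `h^1(Y)` of a smooth projective curve `Y`. -/
structure IsAb (D : CompactData k M) (Ab Pr : Sch k → Prop) : Prop where
  zero : ∀ A, Ab A → IsZero (D.H 1 A) → Pr A
  split : ∀ A, Ab A → ∀ X Y : M, Nonempty (D.H 1 A ≅ X ⊞ Y) → ∃ B C, Ab B ∧ Ab C ∧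
    Nonempty (X ≅ D.H 1 B) ∧ Nonempty (Y ≅ D.H 1 C) ∧ (Pr B → Pr C → Pr A)
  jacobian : ∀ A, Ab A → ∃ Y : Sch k, SmoothProj Y ∧ topologicalKrullDim Y.left ≤ (1 : ℕ) ∧
    ∃ (i : D.H 1 A ⟶ D.H 1 Y) (r : D.H 1 Y ⟶ D.H 1 A), i ≫ r = 𝟙 _

/-- Every abelian variety `A` whose motive `h^1(A)` is isomorphic to a direct factor of a Tate twist of
`N` has the property `Pr`. -/
def AbFactors (D : CompactData k M) (Ab Pr : Sch k → Prop) (N : M) : Prop :=
  Facts D (fun N' => ∀ A, Ab A → Nonempty (N' ≅ D.H 1 A) → Pr A) N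

variable {D : CompactData k M} {Ab Pr : Sch k → Prop}

lemma ab_serre (h : IsMotives D) (hA : IsAb D Ab Pr) : IsTateSerre D (AbFactors D Ab Pr) := by
  refine facts_serre h.compact h.semisimple ?_ ?_ ?_
  · rintro X hX A hA' ⟨e⟩
    exact hA.zero A hA' (hX.of_iso e.symm)
  · rintro X Y e hX A hA' ⟨e'⟩
    exact hX A hA' ⟨e ≪≫ e'⟩
  · rintro X Y hX hY A hA' ⟨e⟩
    obtain ⟨B, C, hB, hC, e1, e2, h1⟩ := hA.split A hA' X Y ⟨e.symm⟩
    exact h1 (hX B hB e1) (hY C hC e2)

/-- **All abelian varieties over `k` have the property `Pr` if and only if this is true for the abelian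
varieties that occur in the cohomology of the cubic hypersurfaces `T(x, y, z) = 1` with a block of at most
three variables.** -/
theorem ab_iff [PerfectField k] (h : IsMotives D) (hA : IsAb D Ab Pr)
    (point : ∀ i, AbFactors D Ab Pr (D.H i (aff k k))) : (∀ A, Ab A → Pr A) ↔
      ∀ (a b c : ℕ) (T : Fin a → Fin b → Fin c → k), (a ≤ 3 ∨ b ≤ 3 ∨ c ≤ 3) →
        ∀ i, AbFactors D Ab Pr (D.H i (hypS T)) := by
  constructor
  · intro h1 a b c T _ i m N s r _ A hA' _
    exact h1 A hA'
  · intro h1 A hA'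
    obtain ⟨Y, hY, hn, i, r, hir⟩ := hA.jacobian A hA'
    have h2 := (proj_iff h.compact h.generated (ab_serre h hA) point 1).mpr h1 Y hY hn 1
    obtain ⟨e⟩ := h.compact.twZero
    refine h2 0 (D.H 1 A) (i ≫ e.inv.app _) (e.hom.app _ ≫ r) ?_ A hA' ⟨Iso.refl _⟩
    have h3 : e.inv.app (D.H 1 Y) ≫ e.hom.app (D.H 1 Y) = 𝟙 _ := e.inv_hom_id_app _
    rw [Category.assoc, ← Category.assoc (e.inv.app _), h3]
    erw [Category.id_comp]
    exact hir

end Pool.Agent.Q193.LT
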