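import Pool.Agent.Q193.LT.Hir

/-!
# Additive invariants

For a family of invariants `e m X`, `m ∈ ℤ`, with values in an abelian group, which are additive for
closed-open decompositions, which are shifted by affine bundles and for which
`e m (X × 𝔾_m) = e (m - 1) X - e m X`, the schemes `X` such that all `e m X` are in a given subgroup have
the closure properties `Bnd`.
-/

set_option autoImplicit false

open CategoryTheory CategoryTheory.Limits AlgebraicGeometry Pool.Agent.Y116.UV Pool.Agent.Z125.UN

universe w

namespace Pool.Agent.Q193.LT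

/-- A family of invariants `e m X` with values in `G`, which are only considered if `fin m X` is true
(for Euler characteristics: if the groups are of finite rank). -/
structure AddData (R : Type) [CommRing R] (G : Type w) where
  /-- the finiteness condition -/
  fin : ℤ → Sch R → Prop
  /-- the invariant -/
  e : ℤ → Sch R → G

variable {R : Type} [CommRing R] {G : Type w} [AddCommGroup G]

/-- Additivity for a closed subscheme `Z` of `X` and its complement `U`. -/
structure AddTriple (D : AddData R G) (m : ℤ) (Z X U : Sch R) : Prop where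
  total : D.fin m Z → D.fin m U → D.fin m X
  opened : D.fin m Z → D.fin m X → D.fin m U
  closed : D.fin m X → D.fin m U → D.fin m Z
  add : D.fin m Z → D.fin m X → D.fin m U → D.e m X = D.e m Z + D.e m U

/-- The standard properties. -/
structure IsAdd (D : AddData R G) : Prop where
  iso : ∀ {X Y : Sch R}, FT True X → Nonempty (X ≅ Y) → ∀ m,
    (D.fin m X → D.fin m Y) ∧ D.e m X = D.e m Y
  triple : ∀ {Z X U : Sch R} (i : Z ⟶ X) (j : U ⟶ X), FT True X → IsTriple i j →
    ∀ m, AddTriple D m Z X U
  bundle : ∀ (B : Type) [CommRing B] [Algebra R B] [Algebra.FiniteType R B] (r : ℕ)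
    (f : Fin r → B) (U : Sch R) (j : U ⟶ aff R B), IsOpenImmersion j.left →
    Set.range j.left = {x : PrimeSpectrum B | ∃ l, f l ∉ x.asIdeal} →
    ∀ m, (D.fin m (aff R (Jou f)) ↔ D.fin (m + (1 - r)) U) ∧
      D.e m (aff R (Jou f)) = D.e (m + (1 - r)) U
  torus : ∀ (B : Type) [CommRing B] [Algebra R B] [Algebra.FiniteType R B] (m : ℤ),
    (D.fin m (aff R (LaurentPolynomial B)) → D.fin m (aff R B)) ∧
      D.e m (aff R (LaurentPolynomial B)) = D.e (m - 1) (aff R B) - D.e m (aff R B)
  neg : ∀ (B : Type) [CommRing B] [Algebra R B] [Algebra.FiniteType R B] (m : ℤ), m < 0 →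
    D.e m (aff R B) = 0

/-- All invariants are finite and lie in the subgroup `S`. -/
def InAll (D : AddData R G) (S : AddSubgroup G) (X : Sch R) : Prop :=
  ∀ m, D.fin m X ∧ D.e m X ∈ S

variable {D : AddData R G} {S : AddSubgroup G}

/-- Closure properties. -/
theorem bnd_add (hD : IsAdd D) (h1 : InAll D S (aff R R)) : Bnd True (InAll D S) := by
  have hbun : ∀ (B : Type) [CommRing B] [Algebra R B] [Algebra.FiniteType R B] (r : ℕ)
      (f : Fin r → B) (U : Sch R) (j : U ⟶ aff R B), IsOpenImmersion j.left →
      Set.range j.left = {x : PrimeSpectrum B | ∃ l, f l ∉ x.asIdeal} →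
      (InAll D S U ↔ InAll D S (aff R (Jou f))) := by
    intro B _ _ _ r f U j hj hr
    constructor
    · intro h m
      obtain ⟨h2, h3⟩ := hD.bundle B r f U j hj hr m
      exact ⟨h2.mpr (h _).1, by rw [h3]; exact (h _).2⟩
    · intro h m
      obtain ⟨h2, h3⟩ := hD.bundle B r f U j hj hr (m - (1 - r))
      rw [sub_add_cancel] at h2 h3
      exact ⟨h2.mp (h _).1, by rw [← h3]; exact (h _).2⟩
  exact
  { iso := fun hX e h m => by
      obtain ⟨h2, h3⟩ := hD.iso hX e m
      exact ⟨h2 (h m).1, by rw [← h3]; exact (h m).2⟩
    total := fun i j hX ht hZ hU m => by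
      have h := hD.triple i j hX ht m
      have h2 := h.total (hZ m).1 (hU m).1
      exact ⟨h2, by rw [h.add (hZ m).1 h2 (hU m).1]; exact S.add_mem (hZ m).2 (hU m).2⟩
    opened := fun i j hX ht hZ hX' m => by
      have h := hD.triple i j hX ht m
      have h2 := h.opened (hZ m).1 (hX' m).1
      have h3 := h.add (hZ m).1 (hX' m).1 h2
      refine ⟨h2, ?_⟩
      rw [← sub_eq_iff_eq_add'.mpr h3]
      exact S.sub_mem (hX' m).2 (hZ m).2
    closed := fun i j hX ht hX' hU m => by
      have h := hD.triple i j hX ht m
      have h2 := h.closed (hX' m).1 (hU m).1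
      have h3 := h.add h2 (hX' m).1 (hU m).1
      refine ⟨h2, ?_⟩
      rw [← sub_eq_iff_eq_add.mpr h3]
      exact S.sub_mem (hX' m).2 (hU m).2
    space := fun n => by
      have h2 := (hbun R (n + 1) (f1 R n) (aff R R) (𝟙 _) inferInstance (range_id n)).mp h1
      intro m
      obtain ⟨h3, h4⟩ := hD.iso (ft_aff True) ⟨(affIso (jouOne R n)).symm⟩ m
      exact ⟨h3 (h2 m).1, by rw [← h4]; exact (h2 m).2⟩
    jouanolou := fun B _ _ _ m f U j hj hr h => (hbun B m f U j hj hr).mpr h
    torus := fun B _ _ _ h => by
      have h2 : ∀ (n : ℕ) (m : ℤ), m < n → D.e m (aff R B) ∈ S := by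
        intro n
        induction n with
        | zero =>
          intro m hm
          rw [hD.neg B m (by simpa using hm)]
          exact S.zero_mem
        | succ n ih =>
          intro m hm
          have h3 := (hD.torus B m).2
          have h4 : D.e m (aff R B) = D.e (m - 1) (aff R B) -
              D.e m (aff R (LaurentPolynomial B)) := by rw [h3]; abel
          rw [h4]
          exact S.sub_mem (ih (m - 1) (by push_cast at hm; omega)) (h m).2
      intro m
      exact ⟨(hD.torus B m).1 (h m).1, h2 (m.toNat + 1) m (by push_cast; omega)⟩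
    bundle := fun B _ _ _ m f U j hj hr h => (hbun B m f U j hj hr).mp h }

end Pool.Agent.Q193.LT
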