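import Pool.Agent.Q193.LT.Serre
import Pool.Agent.Q193.LT.Key
import Pool.Agent.Q193.LT.Prime

/-!
# Cohomology theories with compact supports, with values in an abelian category

The data and the standard properties, and the closure properties of the schemes whose cohomology lies in
a Serre class that is stable under Tate twists.
-/

set_option autoImplicit false

open CategoryTheory CategoryTheory.Limits AlgebraicGeometry Pool.Agent.Y116.UV Pool.Agent.Z125.UN

universe v u

namespace Pool.Agent.Q193.LT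

/-- A cohomology theory with compact supports `H^n_c(X)` for the schemes over `R`, with values in the
category `A`, and the Tate twists `M(a)` of the objects of `A`. -/
structure CompactData (R : Type) [CommRing R] (A : Type u) [Category.{v} A] where
  /-- `H^n_c(X)` -/
  H : ℤ → Sch R → A
  /-- the Tate twist `M(a)` -/
  tw : ℤ → A ⥤ A

variable {R : Type} [CommRing R] {A : Type u} [Category.{v} A] [Abelian A]

/-- The standard properties of the cohomology with compact supports of the separated schemes of finite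
type over `R`.

* `exact`: the long exact sequence
  `⋯ → H^n_c(U) → H^n_c(X) → H^n_c(Z) → H^{n+1}_c(U) → ⋯` for a closed subscheme `Z` of `X` with
  the complement `U`;
* `bundle`: for the affine bundle `Spec B[w_1, …, w_m] / (∑ f_l w_l - 1) → U` with fibre `𝔸^{m-1}`,
  where `U` is the complement of `f = 0` in `Spec B`, the cohomology of the total space is
  `H^{n-2(m-1)}_c(U)(-(m-1))`;
* `torus`: `H^n_c(X × 𝔾_m) = H^{n-2}_c(X)(-1) ⊕ H^{n-1}_c(X)` for affine `X`. -/
structure IsCompact (D : CompactData R A) : Prop where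
  twAdditive : ∀ a, (D.tw a).Additive
  twZero : Nonempty (D.tw 0 ≅ 𝟭 A)
  twAdd : ∀ a b, Nonempty (D.tw a ⋙ D.tw b ≅ D.tw (a + b))
  iso : ∀ {X Y : Sch R}, FT True X → Nonempty (X ≅ Y) → ∀ n, Nonempty (D.H n X ≅ D.H n Y)
  exact : ∀ {Z X U : Sch R} (i : Z ⟶ X) (j : U ⟶ X), FT True X → IsTriple i j →
    ∃ (a : ∀ n, D.H n U ⟶ D.H n X) (b : ∀ n, D.H n X ⟶ D.H n Z)
      (d : ∀ n, D.H n Z ⟶ D.H (n + 1) U) (hab : ∀ n, a n ≫ b n = 0)
      (hbd : ∀ n, b n ≫ d n = 0) (hda : ∀ n, d n ≫ a (n + 1) = 0),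
      (∀ n, (ShortComplex.mk (a n) (b n) (hab n)).Exact) ∧
      (∀ n, (ShortComplex.mk (b n) (d n) (hbd n)).Exact) ∧
      (∀ n, (ShortComplex.mk (d n) (a (n + 1)) (hda n)).Exact)
  bundle : ∀ (B : Type) [CommRing B] [Algebra R B] [Algebra.FiniteType R B] (m : ℕ)
    (f : Fin m → B) (U : Sch R) (j : U ⟶ aff R B), IsOpenImmersion j.left →
    Set.range j.left = {x : PrimeSpectrum B | ∃ l, f l ∉ x.asIdeal} →
    ∀ n, Nonempty (D.H n (aff R (Jou f)) ≅ (D.tw (1 - m)).obj (D.H (n + 2 * (1 - m)) U))
  torus : ∀ (B : Type) [CommRing B] [Algebra R B] [Algebra.FiniteType R B], ∀ n,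
    Nonempty (D.H n (aff R (LaurentPolynomial B)) ≅
      (D.tw (-1)).obj (D.H (n - 2) (aff R B)) ⊞ D.H (n - 1) (aff R B))

/-- A Serre class that is stable under the Tate twists. -/
structure IsTateSerre (D : CompactData R A) (S : A → Prop) : Prop extends IsSerre S where
  twist : ∀ (a : ℤ) (M : A), S M → S ((D.tw a).obj M)

variable {D : CompactData R A} {S : A → Prop}

lemma IsTateSerre.untwist (hS : IsTateSerre D S) (hD : IsCompact D) (a : ℤ) (M : A)
    (h : S ((D.tw a).obj M)) : S M := by
  obtain ⟨e0⟩ := hD.twZero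
  obtain ⟨e⟩ := hD.twAdd a (-a)
  have h1 := hS.toIsSerre.iso (e.app M) (hS.twist (-a) _ h)
  rw [add_neg_cancel] at h1
  exact hS.toIsSerre.iso (e0.app M) h1

/-- Closure properties of the schemes whose cohomology with compact supports is in the class `S`. -/
theorem bnd_compact (hD : IsCompact D) (hS : IsTateSerre D S)
    (h1 : ∀ n, S (D.H n (aff R R))) : Bnd True fun X : Sch R => ∀ n, S (D.H n X) := by
  have hbun : ∀ (B : Type) [CommRing B] [Algebra R B] [Algebra.FiniteType R B] (m : ℕ)
      (f : Fin m → B) (U : Sch R) (j : U ⟶ aff R B), IsOpenImmersion j.left →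
      Set.range j.left = {x : PrimeSpectrum B | ∃ l, f l ∉ x.asIdeal} →
      ((∀ n, S (D.H n U)) ↔ ∀ n, S (D.H n (aff R (Jou f)))) := by
    intro B _ _ _ m f U j hj hr
    constructor
    · intro h n
      obtain ⟨e⟩ := hD.bundle B m f U j hj hr n
      exact hS.toIsSerre.iso e.symm (hS.twist _ _ (h _))
    · intro h n
      obtain ⟨e⟩ := hD.bundle B m f U j hj hr (n - 2 * (1 - m))
      have h2 := hS.untwist hD _ _ (hS.toIsSerre.iso e (h _))
      rwa [sub_add_cancel] at h2
  exact
  { iso := fun hX e h n => by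
      obtain ⟨e'⟩ := hD.iso hX e n
      exact hS.toIsSerre.iso e' (h n)
    total := fun i j hX ht hZ hU n => by
      obtain ⟨a, b, d, hab, hbd, hda, e1, e2, e3⟩ := hD.exact i j hX ht
      exact hS.mid _ _ _ (e1 n) (hU n) (hZ n)
    opened := fun i j hX ht hZ hX' n => by
      obtain ⟨a, b, d, hab, hbd, hda, e1, e2, e3⟩ := hD.exact i j hX ht
      have h := hS.mid _ _ _ (e3 (n - 1)) (hZ (n - 1)) (hX' (n - 1 + 1))
      rwa [sub_add_cancel] at h
    closed := fun i j hX ht hX' hU n => by
      obtain ⟨a, b, d, hab, hbd, hda, e1, e2, e3⟩ := hD.exact i j hX ht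
      exact hS.mid _ _ _ (e2 n) (hX' n) (hU (n + 1))
    space := fun n => by
      have h2 := (hbun R (n + 1) (f1 R n) (aff R R) (𝟙 _) inferInstance (range_id n)).mp h1
      intro q
      obtain ⟨e⟩ := hD.iso (ft_aff True) ⟨(affIso (jouOne R n)).symm⟩ q
      exact hS.toIsSerre.iso e (h2 q)
    jouanolou := fun B _ _ _ m f U j hj hr h => (hbun B m f U j hj hr).mpr h
    torus := fun B _ _ _ h n => by
      obtain ⟨e⟩ := hD.torus B (n + 1)
      have h2 := hS.toIsSerre.iso e (h (n + 1))
      have h3 := hS.toIsSerre.of_epi (biprod.snd : (D.tw (-1)).obj (D.H (n + 1 - 2) (aff R B)) ⊞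
        D.H (n + 1 - 1) (aff R B) ⟶ D.H (n + 1 - 1) (aff R B)) h2
      rwa [add_sub_cancel_right] at h3
    bundle := fun B _ _ _ m f U j hj hr h => (hbun B m f U j hj hr).mp h }

end Pool.Agent.Q193.LT
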