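import Pool.Agent.Q193.LT.Defs

/-!
# Serre classes given by realizations: classes which are spanned by motivic ones, semisimple
representations
-/

set_option autoImplicit false

open CategoryTheory CategoryTheory.Limits AlgebraicGeometry Pool.Agent.Y116.UV Pool.Agent.Z125.UN

universe w v u v' u' v'' u''

namespace Pool.Agent.Q193.LT

section

variable {R : Type} [CommRing R] {A : Type u} [Category.{v} A] [Abelian A]

/-- The intersection of two Serre classes. -/
lemma IsTateSerre.and {D : CompactData R A} {S S' : A → Prop} (h : IsTateSerre D S)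
    (h' : IsTateSerre D S') : IsTateSerre D fun M => S M ∧ S' M where
  zero X hX := ⟨h.zero X hX, h'.zero X hX⟩
  mid f g w' e hX hZ := ⟨h.mid f g w' e hX.1 hZ.1, h'.mid f g w' e hX.2 hZ.2⟩
  twist a M hM := ⟨h.twist a M hM.1, h'.twist a M hM.2⟩

/-- The intersection of a family of Serre classes. -/
lemma IsTateSerre.all {D : CompactData R A} {ι : Sort*} {S : ι → A → Prop}
    (h : ∀ i, IsTateSerre D (S i)) : IsTateSerre D fun M => ∀ i, S i M where
  zero X hX := fun i => (h i).zero X hX
  mid f g w' e hX hZ := fun i => (h i).mid f g w' e (hX i) (hZ i)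
  twist a M hM := fun i => (h i).twist a M (hM i)

end

section span

variable {R : Type} [CommRing R] {A : Type u} [Category.{v} A] [Abelian A]
  {A' : Type u'} [Category.{v'} A'] [Preadditive A']
  {B : Type u''} [Category.{v''} B] [Preadditive B] (E : Type w) [Field E] [Linear E B]

/-- For all Tate twists of `Φ M`, the morphisms from the unit object to it after the realization `F`
are linear combinations, with coefficients in `E`, of realizations of morphisms. -/
def SpanAt (D : CompactData R A) (Φ : A ⥤ A') (one : A') (F : A' ⥤ B) (M : A) : Prop :=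
  ∀ a : ℤ, ∀ g : F.obj one ⟶ F.obj (Φ.obj ((D.tw a).obj M)), g ∈ Submodule.span E
    (Set.range fun f : one ⟶ Φ.obj ((D.tw a).obj M) => F.map f)

variable {E} {D : CompactData R A} {Φ : A ⥤ A'} {one : A'} {F : A' ⥤ B}

lemma span_comp {P Q : A'} (t : P ⟶ Q) (g : F.obj one ⟶ F.obj P)
    (hg : g ∈ Submodule.span E (Set.range fun f : one ⟶ P => F.map f)) :
    g ≫ F.map t ∈ Submodule.span E (Set.range fun f : one ⟶ Q => F.map f) := by
  induction hg using Submodule.span_induction with
  | mem x hx =>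
    obtain ⟨f, rfl⟩ := hx
    exact Submodule.subset_span ⟨f ≫ t, F.map_comp _ _⟩
  | zero => rw [zero_comp]; exact Submodule.zero_mem _
  | add x y _ _ hx hy => rw [Preadditive.add_comp]; exact Submodule.add_mem _ hx hy
  | smul c x _ hx => rw [Linear.smul_comp]; exact Submodule.smul_mem _ _ hx

theorem spanAt_serre (hD : IsCompact D) [Φ.Additive] [F.Additive]
    (hss : ∀ {X Y : A} (f : X ⟶ Y), Mono f → ∃ r : Y ⟶ X, f ≫ r = 𝟙 X) :
    IsTateSerre D (SpanAt E D Φ one F) := by
  have hta := hD.twAdditive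
  have h := serre_of_semisimple (S := SpanAt E D Φ one F) hss ?_ ?_ ?_
  · refine { toIsSerre := h, twist := ?_ }
    intro a M hM b g
    obtain ⟨e⟩ := hD.twAdd a b
    let e' : Φ.obj ((D.tw b).obj ((D.tw a).obj M)) ≅ Φ.obj ((D.tw (a + b)).obj M) :=
      Φ.mapIso (e.app M)
    have h1 := span_comp e'.inv _ (hM (a + b) (g ≫ F.map e'.hom))
    rwa [Category.assoc, ← F.map_comp, e'.hom_inv_id, F.map_id, Category.comp_id] at h1
  · intro X hX a g
    have h1 : IsZero ((D.tw a).obj X) := (D.tw a).map_isZero hX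
    have h2 : IsZero (F.obj (Φ.obj ((D.tw a).obj X))) := F.map_isZero (Φ.map_isZero h1)
    rw [show g = 0 from h2.eq_of_tgt _ _]
    exact Submodule.zero_mem _
  · intro X Y i r hir hY a g
    have h1 := span_comp (Φ.map ((D.tw a).map r)) _ (hY a (g ≫ F.map (Φ.map ((D.tw a).map i))))
    rwa [Category.assoc, ← F.map_comp, ← Φ.map_comp, ← (D.tw a).map_comp, hir, (D.tw a).map_id,
      Φ.map_id, F.map_id, Category.comp_id] at h1
  · intro X Y hX hY a g
    have h1 := span_comp (Φ.map ((D.tw a).map (biprod.inl : X ⟶ X ⊞ Y))) _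
      (hX a (g ≫ F.map (Φ.map ((D.tw a).map biprod.fst))))
    have h2 := span_comp (Φ.map ((D.tw a).map (biprod.inr : Y ⟶ X ⊞ Y))) _
      (hY a (g ≫ F.map (Φ.map ((D.tw a).map biprod.snd))))
    have h3 := Submodule.add_mem _ h1 h2
    rwa [Category.assoc, Category.assoc, ← F.map_comp, ← F.map_comp, ← Φ.map_comp, ← Φ.map_comp,
      ← (D.tw a).map_comp, ← (D.tw a).map_comp, ← Preadditive.comp_add, ← F.map_add,
      ← Φ.map_add, ← (D.tw a).map_add, biprod.total, (D.tw a).map_id, Φ.map_id, F.map_id,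
      Category.comp_id] at h3

end span

section ss

variable {R : Type} [CommRing R] {A : Type u} [Category.{v} A] [Abelian A]
  {Λ : Type u'} [Ring Λ]

/-- The realizations of all Tate twists of `M` are semisimple modules over the ring `Λ` (the group
algebra of a Galois group). -/
def SemiAt (D : CompactData R A) (F : A ⥤ ModuleCat.{w} Λ) (M : A) : Prop :=
  ∀ a : ℤ, IsSemisimpleModule Λ (F.obj ((D.tw a).obj M))

variable {D : CompactData R A} {F : A ⥤ ModuleCat.{w} Λ}

theorem semiAt_serre (hD : IsCompact D) [F.Additive]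
    (hss : ∀ {X Y : A} (f : X ⟶ Y), Mono f → ∃ r : Y ⟶ X, f ≫ r = 𝟙 X) :
    IsTateSerre D (SemiAt D F) := by
  have hta := hD.twAdditive
  have hret : ∀ {P Q : A} (i : P ⟶ Q) (r : Q ⟶ P), i ≫ r = 𝟙 P →
      IsSemisimpleModule Λ (F.obj Q) → IsSemisimpleModule Λ (F.obj P) := by
    intro P Q i r hir hQ
    refine IsSemisimpleModule.of_injective (F.map i).hom ?_
    apply Function.LeftInverse.injective (g := (F.map r).hom)
    intro x
    have h1 : F.map i ≫ F.map r = 𝟙 _ := by rw [← F.map_comp, hir, F.map_id]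
    exact congrArg (fun t : F.obj P ⟶ F.obj P => t.hom x) h1
  have h := serre_of_semisimple (S := SemiAt D F) hss ?_ ?_ ?_
  · refine { toIsSerre := h, twist := ?_ }
    intro a M hM b
    obtain ⟨e⟩ := hD.twAdd a b
    exact hret (e.hom.app M) (e.inv.app M) (e.hom_inv_id_app M) (hM (a + b))
  · intro X hX a
    have h1 : IsZero (F.obj ((D.tw a).obj X)) := F.map_isZero ((D.tw a).map_isZero hX)
    have : Subsingleton (F.obj ((D.tw a).obj X)) := ModuleCat.subsingleton_of_isZero h1
    have h2 : Subsingleton (Submodule Λ (F.obj ((D.tw a).obj X))) := inferInstance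
    exact { exists_isCompl := fun x => ⟨⊤, by
      rw [show x = ⊥ from Subsingleton.elim _ _]
      exact isCompl_bot_top⟩ }
  · intro X Y i r hir hY a
    exact hret ((D.tw a).map i) ((D.tw a).map r) (by rw [← (D.tw a).map_comp, hir, (D.tw a).map_id])
      (hY a)
  · intro X Y hX hY a
    let f1 : F.obj ((D.tw a).obj X) →ₗ[Λ] F.obj ((D.tw a).obj (X ⊞ Y)) :=
      (F.map ((D.tw a).map biprod.inl)).hom
    let f2 : F.obj ((D.tw a).obj Y) →ₗ[Λ] F.obj ((D.tw a).obj (X ⊞ Y)) :=
      (F.map ((D.tw a).map biprod.inr)).hom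
    have i1 : IsSemisimpleModule Λ (F.obj ((D.tw a).obj X)) := hX a
    have i2 : IsSemisimpleModule Λ (F.obj ((D.tw a).obj Y)) := hY a
    have h1 : IsSemisimpleModule Λ (LinearMap.range f1 ⊔ LinearMap.range f2 :
      Submodule Λ (F.obj ((D.tw a).obj (X ⊞ Y)))) :=
      IsSemisimpleModule.sup (IsSemisimpleModule.range f1) (IsSemisimpleModule.range f2)
    have h2 : LinearMap.range f1 ⊔ LinearMap.range f2 = ⊤ := by
      rw [eq_top_iff]
      intro x _
      have h3 : F.map ((D.tw a).map (biprod.fst : X ⊞ Y ⟶ X)) ≫ F.map ((D.tw a).map biprod.inl) +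
          F.map ((D.tw a).map (biprod.snd : X ⊞ Y ⟶ Y)) ≫ F.map ((D.tw a).map biprod.inr) =
          𝟙 _ := by
        rw [← F.map_comp, ← F.map_comp, ← (D.tw a).map_comp, ← (D.tw a).map_comp, ← F.map_add,
          ← (D.tw a).map_add, biprod.total, (D.tw a).map_id, F.map_id]
      have h4 := congrArg (fun t : F.obj ((D.tw a).obj (X ⊞ Y)) ⟶ F.obj ((D.tw a).obj (X ⊞ Y)) =>
        t.hom x) h3
      have h5 : f1 ((F.map ((D.tw a).map (biprod.fst : X ⊞ Y ⟶ X))).hom x) +
        f2 ((F.map ((D.tw a).map (biprod.snd : X ⊞ Y ⟶ Y))).hom x) = x := h4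
      rw [← h5]
      exact Submodule.add_mem_sup ⟨_, rfl⟩ ⟨_, rfl⟩
    rw [h2] at h1
    exact IsSemisimpleModule.congr (Submodule.topEquiv (R := Λ)
      (M := F.obj ((D.tw a).obj (X ⊞ Y)))).symm

end ss

end Pool.Agent.Q193.LT
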