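import Pool.Agent.Q193.LT.Key
import Pool.Agent.Q193.LT.Prime

/-!
# Comparison maps between two theories with long exact sequences

For two families of modules `A j X`, `B j X` with long exact sequences for closed-open decompositions and
a natural transformation `ρ`, the schemes `X` such that `ρ` is bijective in all degrees `j` have the
closure properties `Bnd` (five lemma).
-/

set_option autoImplicit false

open CategoryTheory CategoryTheory.Limits AlgebraicGeometry Pool.Agent.Y116.UV Pool.Agent.Z125.UN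

universe w w'

namespace Pool.Agent.Q193.LT

variable {R : Type} [CommRing R] {ι : Type} {E : Type w'} [CommRing E]

/-- Two families of modules over the ring `E`, with indices in `ι`, depending on a scheme over `R`, and
a comparison map between them. -/
structure PairData (R : Type) [CommRing R] (ι : Type) (E : Type w') [CommRing E] where
  /-- the first theory -/
  A : ι → Sch R → ModuleCat.{w} E
  /-- the second theory -/
  B : ι → Sch R → ModuleCat.{w} E
  /-- the comparison map -/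
  ρ : ∀ j X, A j X ⟶ B j X

/-- `P → Q → S` is exact at `Q`. -/
def ExactAt {P Q S : ModuleCat.{w} E} (f : P ⟶ Q) (g : Q ⟶ S) : Prop :=
  Function.Exact f.hom g.hom

/-- The maps of a sequence `⋯ → A_j X → A_j Y → A_j Z → A_{δ j} X → ⋯` -/
structure LesMaps (A : ι → Sch R → ModuleCat.{w} E) (δ : ι ≃ ι) (X Y Z : Sch R) where
  /-- `A_j X → A_j Y` -/
  f : ∀ j, A j X ⟶ A j Y
  /-- `A_j Y → A_j Z` -/
  g : ∀ j, A j Y ⟶ A j Z
  /-- `A_j Z → A_{δ j} X` -/
  h : ∀ j, A j Z ⟶ A (δ j) X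

/-- The long sequence is exact. -/
structure LesMaps.IsExact {A : ι → Sch R → ModuleCat.{w} E} {δ : ι ≃ ι} {X Y Z : Sch R}
    (m : LesMaps A δ X Y Z) : Prop where
  fg : ∀ j, ExactAt (m.f j) (m.g j)
  gh : ∀ j, ExactAt (m.g j) (m.h j)
  hf : ∀ j, ExactAt (m.h j) (m.f (δ j))

/-- The long sequences are compatible with the comparison maps. -/
structure LesComm (D : PairData.{w} R ι E) {δ : ι ≃ ι} {X Y Z : Sch R}
    (m : LesMaps D.A δ X Y Z) (m' : LesMaps D.B δ X Y Z) : Prop where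
  f : ∀ j, m.f j ≫ D.ρ j Y = D.ρ j X ≫ m'.f j
  g : ∀ j, m.g j ≫ D.ρ j Z = D.ρ j Y ≫ m'.g j
  h : ∀ j, m.h j ≫ D.ρ (δ j) X = D.ρ j Z ≫ m'.h j

/-- Long exact sequences `⋯ → A_j X → A_j Y → A_j Z → A_{δ j} X → ⋯` and the same for `B`, which are
compatible with the comparison maps. -/
def LesPair (D : PairData.{w} R ι E) (δ : ι ≃ ι) (X Y Z : Sch R) : Prop :=
  ∃ (m : LesMaps D.A δ X Y Z) (m' : LesMaps D.B δ X Y Z),
    m.IsExact ∧ m'.IsExact ∧ LesComm D m m'

/-- The comparison map in degree `j` for `X` is isomorphic to the one in degree `j'` for `Y`. -/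
def SameAt (D : PairData.{w} R ι E) (j : ι) (X : Sch R) (j' : ι) (Y : Sch R) : Prop :=
  ∃ (e : D.A j X ≅ D.A j' Y) (e' : D.B j X ≅ D.B j' Y), e.hom ≫ D.ρ j' Y = D.ρ j X ≫ e'.hom

/-- The comparison map in degree `j` for `X` is a direct factor of the one in degree `j'` for `Y`. -/
def FactorAt (D : PairData.{w} R ι E) (j : ι) (X : Sch R) (j' : ι) (Y : Sch R) : Prop :=
  ∃ (s : D.A j X ⟶ D.A j' Y) (r : D.A j' Y ⟶ D.A j X) (s' : D.B j X ⟶ D.B j' Y)
    (r' : D.B j' Y ⟶ D.B j X), s ≫ r = 𝟙 _ ∧ s' ≫ r' = 𝟙 _ ∧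
    s ≫ D.ρ j' Y = D.ρ j X ≫ s' ∧ r ≫ D.ρ j X = D.ρ j' Y ≫ r'

/-- The standard properties: isomorphisms, long exact sequences for a closed subscheme `Z` of `X` and its
complement `U` (covariant or contravariant), affine bundles with fibre `𝔸^{m-1}` (`τ` is the Tate
twist), products with `𝔾_m`. -/
structure IsPair (D : PairData.{w} R ι E) (δ τ σ : ι ≃ ι) : Prop where
  iso : ∀ {X Y : Sch R}, FT True X → Nonempty (X ≅ Y) → ∀ j, SameAt D j X j Y
  les : ∀ {Z X U : Sch R} (i : Z ⟶ X) (j : U ⟶ X), FT True X → IsTriple i j →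
    LesPair D δ U X Z ∨ LesPair D δ Z X U
  bundle : ∀ (B : Type) [CommRing B] [Algebra R B] [Algebra.FiniteType R B] (m : ℕ)
    (f : Fin m → B) (U : Sch R) (j : U ⟶ aff R B), IsOpenImmersion j.left →
    Set.range j.left = {x : PrimeSpectrum B | ∃ l, f l ∉ x.asIdeal} →
    ∀ q, SameAt D q (aff R (Jou f)) (((τ : Equiv.Perm ι) ^ (1 - m : ℤ)) q) U
  torus : ∀ (B : Type) [CommRing B] [Algebra R B] [Algebra.FiniteType R B] (q : ι),
    FactorAt D q (aff R B) (σ q) (aff R (LaurentPolynomial B))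

/-- The comparison map is bijective in all degrees. -/
def BijAll (D : PairData.{w} R ι E) (X : Sch R) : Prop :=
  ∀ j, Function.Bijective (D.ρ j X).hom

variable {D : PairData.{w} R ι E} {δ τ σ : ι ≃ ι}

lemma bij_iff {P Q : ModuleCat.{w} E} (f : P ⟶ Q) : Function.Bijective f.hom ↔ IsIso f :=
  (ConcreteCategory.isIso_iff_bijective f).symm

lemma SameAt.iff {j : ι} {X : Sch R} {j' : ι} {Y : Sch R} (h : SameAt D j X j' Y) :
    Function.Bijective (D.ρ j X).hom ↔ Function.Bijective (D.ρ j' Y).hom := by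
  obtain ⟨e, e', h⟩ := h
  rw [bij_iff, bij_iff]
  constructor
  · intro h1
    have h2 : D.ρ j' Y = e.inv ≫ D.ρ j X ≫ e'.hom := by rw [← h, Iso.inv_hom_id_assoc]
    rw [h2]
    infer_instance
  · intro h1
    have h2 : D.ρ j X = e.hom ≫ D.ρ j' Y ≫ e'.inv := by
      rw [← Category.assoc, h, Category.assoc, Iso.hom_inv_id, Category.comp_id]
    rw [h2]
    infer_instance

lemma FactorAt.bij {j : ι} {X : Sch R} {j' : ι} {Y : Sch R} (h : FactorAt D j X j' Y)
    (hb : Function.Bijective (D.ρ j' Y).hom) : Function.Bijective (D.ρ j X).hom := by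
  obtain ⟨s, r, s', r', h1, h2, h3, h4⟩ := h
  rw [bij_iff] at hb ⊢
  refine ⟨s' ≫ inv (D.ρ j' Y) ≫ r, ?_, ?_⟩
  · rw [← Category.assoc, ← h3, Category.assoc, IsIso.hom_inv_id_assoc, h1]
  · rw [Category.assoc, Category.assoc, h4, IsIso.inv_hom_id_assoc, h2]

section les

variable {X Y Z : Sch R} (h : LesPair D δ X Y Z)

lemma sq {P Q P' Q' : ModuleCat.{w} E} {f : P ⟶ Q} {g : Q ⟶ Q'} {f' : P ⟶ P'} {g' : P' ⟶ Q'}
    (h : f ≫ g = f' ≫ g') : g'.hom ∘ₗ f'.hom = g.hom ∘ₗ f.hom := by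
  rw [← ModuleCat.hom_comp, ← ModuleCat.hom_comp, h]

include h

lemma LesPair.mid (hX : BijAll D X) (hZ : BijAll D Z) : BijAll D Y := by
  obtain ⟨m, m', e, e', c⟩ := h
  intro j
  obtain ⟨j, rfl⟩ := δ.surjective j
  exact LinearMap.bijective_of_surjective_of_bijective_of_bijective_of_injective (m.h j).hom
    (m.f (δ j)).hom (m.g (δ j)).hom (m.h (δ j)).hom (m'.h j).hom (m'.f (δ j)).hom
    (m'.g (δ j)).hom (m'.h (δ j)).hom (D.ρ j Z).hom (D.ρ (δ j) X).hom (D.ρ (δ j) Y).hom
    (D.ρ (δ j) Z).hom (D.ρ (δ (δ j)) X).hom (sq (c.h j)) (sq (c.f _)) (sq (c.g _))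
    (sq (c.h _)) (e.hf _) (e.fg _) (e.gh _) (e'.hf _) (e'.fg _) (e'.gh _) (hZ j).2 (hX (δ j))
    (hZ (δ j)) (hX (δ (δ j))).1

lemma LesPair.right (hX : BijAll D X) (hY : BijAll D Y) : BijAll D Z := by
  obtain ⟨m, m', e, e', c⟩ := h
  intro j
  exact LinearMap.bijective_of_surjective_of_bijective_of_bijective_of_injective (m.f j).hom
    (m.g j).hom (m.h j).hom (m.f (δ j)).hom (m'.f j).hom (m'.g j).hom (m'.h j).hom
    (m'.f (δ j)).hom (D.ρ j X).hom (D.ρ j Y).hom (D.ρ j Z).hom (D.ρ (δ j) X).hom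
    (D.ρ (δ j) Y).hom (sq (c.f j)) (sq (c.g _)) (sq (c.h _)) (sq (c.f _)) (e.fg _) (e.gh _)
    (e.hf _) (e'.fg _) (e'.gh _) (e'.hf _) (hX j).2 (hY j) (hX (δ j)) (hY (δ j)).1

lemma LesPair.left (hY : BijAll D Y) (hZ : BijAll D Z) : BijAll D X := by
  obtain ⟨m, m', e, e', c⟩ := h
  intro j
  obtain ⟨j, rfl⟩ := δ.surjective j
  exact LinearMap.bijective_of_surjective_of_bijective_of_bijective_of_injective (m.g j).hom
    (m.h j).hom (m.f (δ j)).hom (m.g (δ j)).hom (m'.g j).hom (m'.h j).hom (m'.f (δ j)).hom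
    (m'.g (δ j)).hom (D.ρ j Y).hom (D.ρ j Z).hom (D.ρ (δ j) X).hom (D.ρ (δ j) Y).hom
    (D.ρ (δ j) Z).hom (sq (c.g j)) (sq (c.h _)) (sq (c.f _)) (sq (c.g _)) (e.gh _) (e.hf _)
    (e.fg _) (e'.gh _) (e'.hf _) (e'.fg _) (hY j).2 (hZ j) (hY (δ j)) (hZ (δ j)).1

end les

/-- Closure properties of the schemes for which the comparison map is bijective in all degrees. -/
theorem bnd_pair (hD : IsPair D δ τ σ) (h1 : BijAll D (aff R R)) : Bnd True (BijAll D) := by
  have hbun : ∀ (B : Type) [CommRing B] [Algebra R B] [Algebra.FiniteType R B] (m : ℕ)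
      (f : Fin m → B) (U : Sch R) (j : U ⟶ aff R B), IsOpenImmersion j.left →
      Set.range j.left = {x : PrimeSpectrum B | ∃ l, f l ∉ x.asIdeal} →
      (BijAll D U ↔ BijAll D (aff R (Jou f))) := by
    intro B _ _ _ m f U j hj hr
    constructor
    · intro h q
      exact (hD.bundle B m f U j hj hr q).iff.mpr (h _)
    · intro h q
      obtain ⟨q, rfl⟩ := ((τ : Equiv.Perm ι) ^ (1 - m : ℤ)).surjective q
      exact (hD.bundle B m f U j hj hr q).iff.mp (h q)
  exact
  { iso := fun hX e h j => (hD.iso hX e j).iff.mp (h j)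
    total := fun i j hX ht hZ hU => by
      rcases hD.les i j hX ht with h | h
      · exact h.mid hU hZ
      · exact h.mid hZ hU
    opened := fun i j hX ht hZ hX' => by
      rcases hD.les i j hX ht with h | h
      · exact h.left hX' hZ
      · exact h.right hZ hX'
    closed := fun i j hX ht hX' hU => by
      rcases hD.les i j hX ht with h | h
      · exact h.right hU hX'
      · exact h.left hX' hU
    space := fun n => by
      have h2 := (hbun R (n + 1) (f1 R n) (aff R R) (𝟙 _) inferInstance (range_id n)).mp h1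
      intro q
      exact (hD.iso (ft_aff True) ⟨(affIso (jouOne R n)).symm⟩ q).iff.mp (h2 q)
    jouanolou := fun B _ _ _ m f U j hj hr h => (hbun B m f U j hj hr).mpr h
    torus := fun B _ _ _ h q => (hD.torus B q).bij (h _)
    bundle := fun B _ _ _ m f U j hj hr h => (hbun B m f U j hj hr).mp h }

end Pool.Agent.Q193.LT
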