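import Pool.Agent.Q193.LT.Defs
import Pool.Agent.Q193.LT.Pair

/-!
# Smooth projective schemes generate by closed-open decompositions (resolution of singularities)
-/

set_option autoImplicit false

open CategoryTheory CategoryTheory.Limits AlgebraicGeometry Pool.Agent.Y116.UV Pool.Agent.Z125.UN

universe w w'

namespace Pool.Agent.Q193.LT

variable {k : Type} [Field k]

/-- The property `P` is invariant under isomorphisms, and if it is true for two of the schemes `X`, `Z`,
`X ∖ Z` (`Z` closed in `X`), it is true for the third one. -/
structure TwoOfThree (P : Sch k → Prop) : Prop where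
  iso : ∀ {X Y : Sch k}, FT True X → Nonempty (X ≅ Y) → P X → P Y
  total : ∀ {Z X U : Sch k} (i : Z ⟶ X) (j : U ⟶ X), FT True X → IsTriple i j → P Z → P U → P X
  opened : ∀ {Z X U : Sch k} (i : Z ⟶ X) (j : U ⟶ X), FT True X → IsTriple i j → P Z → P X → P U
  closed : ∀ {Z X U : Sch k} (i : Z ⟶ X) (j : U ⟶ X), FT True X → IsTriple i j → P X → P U → P Z

/-- Smooth projective schemes of dimension at most `n` generate all separated schemes of finite type of
dimension at most `n` over `k` by closed-open decompositions. For fields of characteristic zero this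
follows from Hironaka's resolution of singularities (every variety has a dense open subscheme which is
open in a smooth projective variety), by induction on the dimension. -/
def Hironaka (k : Type) [Field k] : Prop :=
  ∀ (n : ℕ) (P : Sch k → Prop), TwoOfThree P →
    (∀ Y : Sch k, SmoothProj Y → topologicalKrullDim Y.left ≤ n → P Y) →
    ∀ X : Sch k, FT True X → topologicalKrullDim X.left ≤ n → P X

lemma twoOfThree {P : Sch k → Prop} (hP : Bnd True P) : TwoOfThree P where
  iso h e := hP.iso h e
  total i j h ht := hP.total i j h ht
  opened i j h ht := hP.opened i j h ht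
  closed i j h ht := hP.closed i j h ht

section

variable [PerfectField k] {P : Sch k → Prop} (hk : Hironaka k) (hP : Bnd True P)

include hk hP

/-- Smooth projective schemes of dimension at most `n`, and the trilinear forms with a block of at
most `n + 2` variables. -/
theorem sp_iff (n : ℕ) :
    (∀ Y : Sch k, SmoothProj Y → topologicalKrullDim Y.left ≤ n → P Y) ↔
      ∀ (a b c : ℕ) (T : Fin a → Fin b → Fin c → k), (a ≤ n + 2 ∨ b ≤ n + 2 ∨ c ≤ n + 2) →
        P (hypS T) := by
  rw [← dim_iff hP n]
  exact ⟨fun h => hk n P (twoOfThree hP) h, fun h Y hY hn => h Y hY.ft hn⟩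

/-- All smooth projective schemes, and all trilinear forms. -/
theorem sp_all_iff : (∀ Y : Sch k, SmoothProj Y → P Y) ↔
      ∀ (a b c : ℕ) (T : Fin a → Fin b → Fin c → k), P (hypS T) := by
  constructor
  · intro h a b c T
    exact (sp_iff hk hP a).mp (fun Y hY _ => h Y hY) a b c T (Or.inl (by omega))
  · intro h Y hY
    exact (all_iff hP).mpr h Y hY.ft

/-- Over a prime field: all smooth projective schemes, and the tripartite hypergraphs. -/
theorem sp_graph_iff (hF : Frac k) : (∀ Y : Sch k, SmoothProj Y → P Y) ↔
      ∀ (a b c : ℕ) (H : Finset (Fin a × Fin b × Fin c)), P (tripS k H) := by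
  constructor
  · intro h a b c H
    exact (all_iff hP).mpr ((sp_all_iff hk hP).mp h) _ (ft_aff True)
  · intro h Y hY
    exact universal_frac hF hP.toUni h Y hY.ft

end

end Pool.Agent.Q193.LT
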