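import Mathlib

/-!
# Serre classes of objects of an abelian category
-/

set_option autoImplicit false

open CategoryTheory CategoryTheory.Limits
open scoped ZeroObject

universe v u

namespace Pool.Agent.Q193.LT

variable {A : Type u} [Category.{v} A] [Abelian A]

/-- A Serre class of objects: it contains the zero objects, and if it contains the two outer objects
of an exact sequence of three objects, it contains the object in the middle. -/
structure IsSerre (S : A → Prop) : Prop where
  zero : ∀ X, IsZero X → S X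
  mid : ∀ {X Y Z : A} (f : X ⟶ Y) (g : Y ⟶ Z) (w : f ≫ g = 0), (ShortComplex.mk f g w).Exact →
    S X → S Z → S Y

lemma IsSerre.iso {S : A → Prop} (hS : IsSerre S) {X Y : A} (e : X ≅ Y) (h : S X) : S Y := by
  refine hS.mid e.hom (0 : Y ⟶ 0) comp_zero ?_ h (hS.zero _ (isZero_zero A))
  rw [ShortComplex.exact_iff_epi _ rfl]
  change Epi e.hom
  infer_instance

lemma IsSerre.biprod {S : A → Prop} (hS : IsSerre S) {X Y : A} (hX : S X) (hY : S Y) :
    S (X ⊞ Y) := by
  refine hS.mid (biprod.inl : X ⟶ X ⊞ Y) (biprod.snd : X ⊞ Y ⟶ Y) biprod.inl_snd ?_ hX hY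
  exact (ShortComplex.Splitting.ofHasBinaryBiproduct X Y).exact

lemma IsSerre.of_mono {S : A → Prop} (hS : IsSerre S) {X Y : A} (f : X ⟶ Y) [Mono f] (hY : S Y) :
    S X := by
  refine hS.mid (0 : 0 ⟶ X) f zero_comp ?_ (hS.zero _ (isZero_zero A)) hY
  rw [ShortComplex.exact_iff_mono _ rfl]
  change Mono f
  infer_instance

lemma IsSerre.of_epi {S : A → Prop} (hS : IsSerre S) {X Y : A} (f : X ⟶ Y) [Epi f] (hX : S X) :
    S Y := by
  refine hS.mid f (0 : Y ⟶ 0) comp_zero ?_ hX (hS.zero _ (isZero_zero A))
  rw [ShortComplex.exact_iff_epi _ rfl]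
  change Epi f
  infer_instance

/-- In a semisimple abelian category a class which is closed under retracts and direct sums is a Serre
class. -/
lemma serre_of_semisimple (hss : ∀ {X Y : A} (f : X ⟶ Y), Mono f → ∃ r : Y ⟶ X, f ≫ r = 𝟙 X)
    {S : A → Prop} (h0 : ∀ X, IsZero X → S X)
    (hr : ∀ {X Y : A} (i : X ⟶ Y) (r : Y ⟶ X), i ≫ r = 𝟙 X → S Y → S X)
    (hs : ∀ {X Y : A}, S X → S Y → S (X ⊞ Y)) : IsSerre S where
  zero := h0
  mid {X Y Z} f g w hex hX hZ := by
    -- the kernel of `g` is a retract of `X`
    have he : Epi (kernel.lift g f w) := hex.epi_kernelLift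
    obtain ⟨s, hs1⟩ : ∃ s : kernel g ⟶ X, s ≫ kernel.lift g f w = 𝟙 _ := by
      obtain ⟨r, hr1⟩ := hss (kernel.ι (kernel.lift g f w)) inferInstance
      let c := kernel.lift g f w
      have h1 : kernel.ι c ≫ (𝟙 X - r ≫ kernel.ι c) = 0 := by
        rw [Preadditive.comp_sub, Category.comp_id, ← Category.assoc, hr1, Category.id_comp, sub_self]
      obtain ⟨s, hs⟩ : ∃ s : kernel g ⟶ X, c ≫ s = 𝟙 X - r ≫ kernel.ι c := by
        have h2 := Abelian.epiIsCokernelOfKernel (KernelFork.ofι (kernel.ι c) (kernel.condition c))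
          (kernelIsKernel c)
        refine ⟨h2.desc (CokernelCofork.ofπ _ h1), ?_⟩
        exact h2.fac _ WalkingParallelPair.one
      refine ⟨s, ?_⟩
      rw [← cancel_epi c, ← Category.assoc, hs, Preadditive.sub_comp, Category.id_comp,
        Category.assoc, kernel.condition, comp_zero, sub_zero, Category.comp_id]
    have hK : S (kernel g) := hr s (kernel.lift g f w) hs1 hX
    -- the image of `g` is a retract of `Z`
    obtain ⟨q, hq⟩ := hss (Abelian.image.ι g) inferInstance
    have hI : S (Abelian.image g) := hr (Abelian.image.ι g) q hq hZ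
    -- `Y` is a retract of their sum
    obtain ⟨p, hp⟩ := hss (kernel.ι g) inferInstance
    -- `Y ⟶ kernel g ⊞ image g`
    have hmono : Mono (biprod.lift p (Abelian.factorThruImage g)) := by
      rw [Preadditive.mono_iff_cancel_zero]
      intro W t ht
      have h1 : t ≫ p = 0 := by
        have := congrArg (fun x => x ≫ biprod.fst) ht
        simpa using this
      have h2 : t ≫ g = 0 := by
        have := congrArg (fun x => x ≫ biprod.snd) ht
        have h3 : t ≫ Abelian.factorThruImage g = 0 := by simpa using this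
        rw [← Abelian.image.fac g, ← Category.assoc, h3, zero_comp]
      have h3 : t = kernel.lift g t h2 ≫ kernel.ι g := (kernel.lift_ι _ _ _).symm
      rw [h3, Category.assoc, hp, Category.comp_id] at h1
      rw [h3, h1, zero_comp]
    obtain ⟨r, hr2⟩ := hss (biprod.lift p (Abelian.factorThruImage g)) hmono
    exact hr _ r hr2 (hs hK hI)

end Pool.Agent.Q193.LT
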