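import Pool.Agent.Q193.LT.Defs

/-!
# Simple objects that occur in the cohomology of schemes
-/

set_option autoImplicit false

open CategoryTheory CategoryTheory.Limits AlgebraicGeometry Pool.Agent.Y116.UV Pool.Agent.Z125.UN

universe v u

namespace Pool.Agent.Q193.LT

section subq

variable {A : Type u} [Category.{v} A] [Abelian A]

/-- `ρ` is isomorphic to a subquotient of `N`: a quotient of a subobject `P` of `N`. -/
def SubQ (ρ N : A) : Prop := ∃ (P : A) (i : P ⟶ N) (q : P ⟶ ρ), Mono i ∧ Epi q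

lemma SubQ.of_iso {ρ N N' : A} (e : N ≅ N') (h : SubQ ρ N) : SubQ ρ N' := by
  obtain ⟨P, i, q, hi, hq⟩ := h
  exact ⟨P, i ≫ e.hom, q, inferInstance, hq⟩

lemma SubQ.not_zero {ρ N : A} [Simple ρ] (h : SubQ ρ N) : ¬ IsZero N := by
  intro hN
  obtain ⟨P, i, q, hi, hq⟩ := h
  have h1 : IsZero P := IsZero.of_mono i hN
  exact Simple.not_isZero ρ (IsZero.of_epi q h1)

/-- A simple subquotient of the object in the middle of an exact sequence is a subquotient of one of the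
two other objects. -/
lemma SubQ.mid {ρ X Y Z : A} [Simple ρ] (f : X ⟶ Y) (g : Y ⟶ Z) (w : f ≫ g = 0)
    (hex : (ShortComplex.mk f g w).Exact) (h : SubQ ρ Y) : SubQ ρ X ∨ SubQ ρ Z := by
  obtain ⟨P, i, q, hi, hq⟩ := h
  by_cases h0 : kernel.ι (i ≫ g) ≫ q = 0
  · right
    let q' : Abelian.coimage (i ≫ g) ⟶ ρ := cokernel.desc _ q h0
    have h1 : Abelian.coimage.π (i ≫ g) ≫ q' = q := cokernel.π_desc _ _ _
    refine ⟨Abelian.coimage (i ≫ g), Abelian.factorThruCoimage (i ≫ g), q', inferInstance, ?_⟩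
    have h2 : Epi (Abelian.coimage.π (i ≫ g) ≫ q') := by
      rw [h1]
      exact hq
    exact epi_of_epi (Abelian.coimage.π (i ≫ g)) q'
  · left
    have hk : Epi (kernel.ι (i ≫ g) ≫ q) := epi_of_nonzero_to_simple h0
    let u : kernel (i ≫ g) ⟶ kernel g := kernel.lift g (kernel.ι (i ≫ g) ≫ i) (by
      rw [Category.assoc, kernel.condition])
    have hu1 : u ≫ kernel.ι g = kernel.ι (i ≫ g) ≫ i := kernel.lift_ι _ _ _
    have hu : Mono u := by
      have h2 : Mono (u ≫ kernel.ι g) := by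
        rw [hu1]
        infer_instance
      exact mono_of_mono u (kernel.ι g)
    have he : Epi (kernel.lift g f w) := hex.epi_kernelLift
    refine ⟨pullback (kernel.lift g f w) u, pullback.fst _ _,
      pullback.snd _ _ ≫ kernel.ι (i ≫ g) ≫ q, inferInstance, ?_⟩
    have h3 : Epi (pullback.snd (kernel.lift g f w) u) := inferInstance
    exact epi_comp _ _

end subq

section origin

variable {R : Type} [CommRing R] {A : Type u} [Category.{v} A] [Abelian A] {D : CompactData R A}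

/-- `ρ` is isomorphic to a subquotient of a Tate twist of `N`. -/
def Occurs (D : CompactData R A) (ρ N : A) : Prop := ∃ a : ℤ, SubQ ρ ((D.tw a).obj N)

lemma tw_equiv (hD : IsCompact D) (a : ℤ) : (D.tw a).IsEquivalence := by
  obtain ⟨e0⟩ := hD.twZero
  obtain ⟨e1⟩ := hD.twAdd a (-a)
  obtain ⟨e2⟩ := hD.twAdd (-a) a
  rw [add_neg_cancel] at e1
  rw [neg_add_cancel] at e2
  exact (CategoryTheory.Equivalence.mk (D.tw a) (D.tw (-a)) (e1 ≪≫ e0).symm (e2 ≪≫ e0)).isEquivalence_functor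

/-- The objects in which `ρ` does not occur form a Serre class. -/
theorem not_occurs_serre (hD : IsCompact D) (ρ : A) [Simple ρ] :
    IsTateSerre D fun N => ¬ Occurs D ρ N where
  zero X hX := by
    rintro ⟨a, h⟩
    have := hD.twAdditive a
    exact h.not_zero ((D.tw a).map_isZero hX)
  mid {X Y Z} f g w hex hX hZ := by
    rintro ⟨a, h⟩
    have := hD.twAdditive a
    have := tw_equiv hD a
    have h1 : ((ShortComplex.mk f g w).map (D.tw a)).Exact := hex.map (D.tw a)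
    rcases SubQ.mid _ _ _ h1 h with h2 | h2
    · exact hX ⟨a, h2⟩
    · exact hZ ⟨a, h2⟩
  twist b M hM := by
    rintro ⟨a, h⟩
    obtain ⟨e⟩ := hD.twAdd b a
    exact hM ⟨b + a, h.of_iso (e.app M)⟩

end origin

section field

variable {k : Type} [Field k] {A : Type u} [Category.{v} A] [Abelian A] {D : CompactData k A}
  (hD : IsCompact D) (ρ : A) [Simple ρ]

include hD

/-- **Every simple object that occurs in the cohomology of some scheme occurs in the cohomology of some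
hypersurface `T(x, y, z) = 1` (or of the point).** -/
theorem origin_all : (∃ X : Sch k, FT True X ∧ ∃ i, Occurs D ρ (D.H i X)) ↔
    (∃ i, Occurs D ρ (D.H i (aff k k))) ∨
      ∃ (a b c : ℕ) (T : Fin a → Fin b → Fin c → k), ∃ i, Occurs D ρ (D.H i (hypS T)) := by
  constructor
  · rintro ⟨X, hX, i, h⟩
    by_contra h0
    rw [not_or] at h0
    obtain ⟨h1, h2⟩ := h0
    have h3 : ∀ n, ¬ Occurs D ρ (D.H n (aff k k)) := fun n hn => h1 ⟨n, hn⟩
    exact (all_iff (bnd_compact hD (not_occurs_serre hD ρ) h3)).mpr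
      (fun a b c T n hn => h2 ⟨a, b, c, T, n, hn⟩) X hX i h
  · rintro (⟨i, h⟩ | ⟨a, b, c, T, i, h⟩)
    · exact ⟨_, ft_aff True, i, h⟩
    · exact ⟨_, ft_aff True, i, h⟩

/-- The same for the dimension at most `n` and blocks of at most `n + 2` variables. -/
theorem origin_dim [PerfectField k] (n : ℕ) :
    (∃ X : Sch k, FT True X ∧ topologicalKrullDim X.left ≤ n ∧ ∃ i, Occurs D ρ (D.H i X)) ↔
    (∃ i, Occurs D ρ (D.H i (aff k k))) ∨
      ∃ (a b c : ℕ) (T : Fin a → Fin b → Fin c → k), (a ≤ n + 2 ∨ b ≤ n + 2 ∨ c ≤ n + 2) ∧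
        ∃ i, Occurs D ρ (D.H i (hypS T)) := by
  have hpt : topologicalKrullDim (aff k k).left ≤ n := by
    rw [topDim_aff, ringKrullDim_eq_zero_of_field]
    exact_mod_cast Nat.zero_le n
  constructor
  · rintro ⟨X, hX, hn, i, h⟩
    by_contra h0
    rw [not_or] at h0
    obtain ⟨h1, h2⟩ := h0
    have h3 : ∀ n, ¬ Occurs D ρ (D.H n (aff k k)) := fun n hn => h1 ⟨n, hn⟩
    exact (dim_iff (bnd_compact hD (not_occurs_serre hD ρ) h3) n).mpr
      (fun a b c T hm j hj => h2 ⟨a, b, c, T, hm, j, hj⟩) X hX hn i h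
  · rintro (⟨i, h⟩ | ⟨a, b, c, T, hm, i, h⟩)
    · exact ⟨_, ft_aff True, hpt, i, h⟩
    · by_contra h0
      have h3 : ∀ n, ¬ Occurs D ρ (D.H n (aff k k)) := fun j hj =>
        h0 ⟨_, ft_aff True, hpt, j, hj⟩
      exact (dim_iff (bnd_compact hD (not_occurs_serre hD ρ) h3) n).mp
        (fun X hX hn j hj => h0 ⟨X, hX, hn, j, hj⟩) a b c T hm i h

/-- Over a prime field: hypersurfaces of tripartite hypergraphs. -/
theorem origin_graph (hk : Frac k) : (∃ X : Sch k, FT True X ∧ ∃ i, Occurs D ρ (D.H i X)) ↔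
    (∃ i, Occurs D ρ (D.H i (aff k k))) ∨
      ∃ (a b c : ℕ) (H : Finset (Fin a × Fin b × Fin c)), ∃ i,
        Occurs D ρ (D.H i (tripS k H)) := by
  constructor
  · rintro ⟨X, hX, i, h⟩
    by_contra h0
    rw [not_or] at h0
    obtain ⟨h1, h2⟩ := h0
    have h3 : ∀ n, ¬ Occurs D ρ (D.H n (aff k k)) := fun n hn => h1 ⟨n, hn⟩
    exact universal_frac hk (bnd_compact hD (not_occurs_serre hD ρ) h3).toUni
      (fun a b c H n hn => h2 ⟨a, b, c, H, n, hn⟩) X hX i h
  · rintro (⟨i, h⟩ | ⟨a, b, c, H, i, h⟩)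
    · exact ⟨_, ft_aff True, i, h⟩
    · exact ⟨_, ft_aff True, i, h⟩

omit [Simple ρ] in
omit hD in
lemma occurs_ft : (∃ Y : Sch k, SmoothProj Y ∧ ∃ i, Occurs D ρ (D.H i Y)) →
    ∃ X : Sch k, FT True X ∧ ∃ i, Occurs D ρ (D.H i X) := by
  rintro ⟨Y, hY, i, h⟩
  exact ⟨Y, hY.ft, i, h⟩

/-- The same for smooth projective schemes of dimension at most `n`. -/
theorem origin_proj [PerfectField k] (hg : Generated D) (n : ℕ) :
    (∃ Y : Sch k, SmoothProj Y ∧ topologicalKrullDim Y.left ≤ n ∧ ∃ i, Occurs D ρ (D.H i Y)) ↔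
    (∃ i, Occurs D ρ (D.H i (aff k k))) ∨
      ∃ (a b c : ℕ) (T : Fin a → Fin b → Fin c → k), (a ≤ n + 2 ∨ b ≤ n + 2 ∨ c ≤ n + 2) ∧
        ∃ i, Occurs D ρ (D.H i (hypS T)) := by
  rw [← origin_dim hD ρ n]
  constructor
  · rintro ⟨Y, hY, hn, i, h⟩
    exact ⟨Y, hY.ft, hn, i, h⟩
  · rintro ⟨X, hX, hn, i, h⟩
    by_contra h0
    exact hg n _ (not_occurs_serre hD ρ) (fun Y hY hm j hj => h0 ⟨Y, hY, hm, j, hj⟩) X hX hn i h

/-- The same for all smooth projective schemes. -/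
theorem origin_proj_all [PerfectField k] (hg : Generated D) :
    (∃ Y : Sch k, SmoothProj Y ∧ ∃ i, Occurs D ρ (D.H i Y)) ↔
    (∃ i, Occurs D ρ (D.H i (aff k k))) ∨
      ∃ (a b c : ℕ) (T : Fin a → Fin b → Fin c → k), ∃ i, Occurs D ρ (D.H i (hypS T)) := by
  constructor
  · intro h
    exact (origin_all hD ρ).mp (occurs_ft ρ h)
  · rintro (⟨i, h⟩ | ⟨a, b, c, T, i, h⟩)
    · obtain ⟨Y, hY, _, j, h1⟩ := (origin_proj hD ρ hg 0).mpr (Or.inl ⟨i, h⟩)
      exact ⟨Y, hY, j, h1⟩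
    · obtain ⟨Y, hY, _, j, h1⟩ :=
        (origin_proj hD ρ hg a).mpr (Or.inr ⟨a, b, c, T, Or.inl (by omega), i, h⟩)
      exact ⟨Y, hY, j, h1⟩

end field

end Pool.Agent.Q193.LT
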