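import Pool.Agent.Q193.LT.Crit

/-!
# Periods of motives: transcendence degree and the dimension of the motivic Galois group
-/

set_option autoImplicit false

open CategoryTheory CategoryTheory.Limits AlgebraicGeometry Pool.Agent.Y116.UV Pool.Agent.Z125.UN
open scoped TensorProduct

universe v u

namespace Pool.Agent.Q193.LT

/-- For a category `M` of motives over the subfield `K` of `ℂ`: the de Rham realization, the Betti
realization, the comparison isomorphisms, and the dimension `dm N` of the motivic Galois group of the
motive `N`, that is of the Tannaka group of the Tannakian subcategory generated by `N`. -/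
structure PeriodData (K : Type) [Field K] [Algebra K ℂ] (M : Type u) [Category.{v} M] where
  /-- the de Rham realization -/
  dR : M ⥤ ModuleCat.{0} K
  /-- the Betti realization -/
  B : M ⥤ ModuleCat.{0} ℚ
  /-- the comparison isomorphism -/
  comp : ∀ N : M, (ℂ ⊗[K] (dR.obj N)) ≃ₗ[ℂ] (ℂ ⊗[ℚ] (B.obj N))
  /-- the dimension of the motivic Galois group -/
  dm : M → ℕ

variable {K : Type} [Field K] [Algebra K ℂ] {M : Type u} [Category.{v} M]

/-- The number `f(c(v))` for a de Rham class `v` and a linear form `f` on the Betti realization. -/
noncomputable def PeriodData.period (P : PeriodData K M) (N : M) (v : P.dR.obj N)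
    (f : P.B.obj N →ₗ[ℚ] ℚ) : ℂ :=
  TensorProduct.rid ℚ ℂ (f.lTensor ℂ (P.comp N ((1 : ℂ) ⊗ₜ[K] v)))

/-- The field of periods of `N`: the field generated over `K` by the entries of the matrix of the
comparison isomorphism. -/
noncomputable def PeriodData.field (P : PeriodData K M) (N : M) : IntermediateField K ℂ :=
  IntermediateField.adjoin K {z | ∃ v f, z = P.period N v f}

/-- The transcendence degree over `K` of the field of periods of `N`. -/
noncomputable def PeriodData.tr (P : PeriodData K M) (N : M) : Cardinal :=
  Algebra.trdeg K (P.field N)

/-- Two standard facts: the transcendence degree of the field of periods of `N` is at most the dimension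
of the motivic Galois group of `N`, and if `N` is a direct factor of `N'`, then the difference of the
transcendence degrees for `N'` and `N` is at most the difference of the dimensions of the groups (the
comparison isomorphism is a point of the torsor of periods, and the fibres of the map from the torsor of
`N'` to the torsor of `N` are torsors under the kernel of the surjective map of the groups). -/
structure IsPeriod (P : PeriodData K M) : Prop where
  le : ∀ N, P.tr N ≤ P.dm N
  factor : ∀ {N N' : M} (i : N ⟶ N') (r : N' ⟶ N), i ≫ r = 𝟙 N →
    ∃ d : ℕ, P.dm N' = P.dm N + d ∧ P.tr N' ≤ P.tr N + d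

/-- **The Grothendieck period conjecture for the motive `N`**: the transcendence degree of the field of
periods of `N` is the dimension of the motivic Galois group of `N`. -/
def GPC (P : PeriodData K M) (N : M) : Prop := P.tr N = P.dm N

/-- The period conjecture is inherited by direct factors. -/
lemma GPC.factor {P : PeriodData K M} (hP : IsPeriod P) {N N' : M} (i : N ⟶ N') (r : N' ⟶ N)
    (h : i ≫ r = 𝟙 N) (hN : GPC P N') : GPC P N := by
  obtain ⟨d, h1, h2⟩ := hP.factor i r h
  refine le_antisymm (hP.le N) ?_
  have h3 : P.tr N' = P.dm N' := hN
  rw [h3, h1, Nat.cast_add] at h2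
  exact (Cardinal.add_le_add_iff_of_lt_aleph0 (Cardinal.natCast_lt_aleph0 (n := d))).mp h2

/-- The same two facts for the dimension `mt N` of the Mumford-Tate group of the Betti realization of the
motive `N` (a subgroup of the motivic Galois group), together with the facts for the periods: if `N` is
a direct factor of `N'`, the kernel of the surjective map from the motivic Galois group of `N'` to that
of `N` has some dimension `d`, and the dimension of the Mumford-Tate group and the transcendence degree
of the field of periods for `N'` exceed those for `N` by at most `d`. -/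
structure IsPeriodMT (P : PeriodData K M) (mt : M → ℕ) : Prop where
  le : ∀ N, P.tr N ≤ P.dm N
  mt_le : ∀ N, mt N ≤ P.dm N
  factor : ∀ {N N' : M} (i : N ⟶ N') (r : N' ⟶ N), i ≫ r = 𝟙 N →
    ∃ d : ℕ, P.dm N' = P.dm N + d ∧ P.tr N' ≤ P.tr N + d ∧ mt N' ≤ mt N + d

/-- The transcendence degree of the field of periods of `N` is the dimension of its Mumford-Tate group,
and also the dimension of its motivic Galois group. -/
def GPCMT (P : PeriodData K M) (mt : M → ℕ) (N : M) : Prop := P.tr N = mt N ∧ mt N = P.dm N

lemma GPCMT.factor {P : PeriodData K M} {mt : M → ℕ} (hP : IsPeriodMT P mt) {N N' : M}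
    (i : N ⟶ N') (r : N' ⟶ N) (h : i ≫ r = 𝟙 N) (hN : GPCMT P mt N') : GPCMT P mt N := by
  obtain ⟨d, h1, h2, h3⟩ := hP.factor i r h
  obtain ⟨h4, h5⟩ := hN
  have h6 := hP.mt_le N
  have h7 : mt N = P.dm N := by omega
  refine ⟨?_, h7⟩
  rw [h7]
  refine le_antisymm (hP.le N) ?_
  rw [h4, h5, h1, Nat.cast_add] at h2
  exact (Cardinal.add_le_add_iff_of_lt_aleph0 (Cardinal.natCast_lt_aleph0 (n := d))).mp h2

end Pool.Agent.Q193.LT
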