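import Pool.Agent.Q193.LT.Add

/-!
# Orders of poles from the right, and alternating products of `L`-functions
-/

set_option autoImplicit false

open CategoryTheory CategoryTheory.Limits AlgebraicGeometry Pool.Agent.Y116.UV Pool.Agent.Z125.UN
open Filter Topology

namespace Pool.Agent.Q193.LT

/-- The function `f` of a real variable `t > 0` has a pole of order `k` at `t = 0` (a zero of order `-k`
if `k` is negative): `t ^ k f(t)` has a finite nonzero limit as `t → 0⁺`. -/
def HasPole (f : ℝ → ℂˣ) (k : ℤ) : Prop :=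
  ∃ c : ℂ, c ≠ 0 ∧ Tendsto (fun t : ℝ => (f t : ℂ) * (t : ℂ) ^ k) (𝓝[>] 0) (𝓝 c)

lemma HasPole.one : HasPole 1 0 := ⟨1, one_ne_zero, by simp⟩

lemma HasPole.mul {f g : ℝ → ℂˣ} {k l : ℤ} (hf : HasPole f k) (hg : HasPole g l) :
    HasPole (f * g) (k + l) := by
  obtain ⟨c, hc, h1⟩ := hf
  obtain ⟨d, hd, h2⟩ := hg
  refine ⟨c * d, mul_ne_zero hc hd, (h1.mul h2).congr' ?_⟩
  filter_upwards [self_mem_nhdsWithin] with t ht
  have ht' : (t : ℂ) ≠ 0 := by exact_mod_cast (ne_of_gt ht)
  rw [Pi.mul_apply, Units.val_mul, zpow_add₀ ht']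
  ring

lemma HasPole.inv {f : ℝ → ℂˣ} {k : ℤ} (hf : HasPole f k) : HasPole f⁻¹ (-k) := by
  obtain ⟨c, hc, h1⟩ := hf
  refine ⟨c⁻¹, inv_ne_zero hc, (h1.inv₀ hc).congr ?_⟩
  intro t
  rw [Pi.inv_apply, Units.val_inv_eq_inv_val, zpow_neg, mul_inv]

/-- The pairs of a function and the order of its pole form a group. -/
def poleGroup : AddSubgroup (Additive (ℝ → ℂˣ) × ℤ) where
  carrier := {p | HasPole p.1.toMul p.2}
  zero_mem' := HasPole.one
  add_mem' := fun ha hb => HasPole.mul ha hb
  neg_mem' := fun ha => HasPole.inv ha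

/-- For every integer `m` a function `L m X` of a real variable `t > 0` and an integer `χ m X`. -/
structure PoleData (R : Type) [CommRing R] where
  /-- the function -/
  L : ℤ → Sch R → ℝ → ℂˣ
  /-- the integer -/
  χ : ℤ → Sch R → ℤ

variable {R : Type} [CommRing R]

/-- The standard properties: closed-open decompositions, affine bundles, products with `𝔾_m`. -/
structure IsPole (D : PoleData R) : Prop where
  iso : ∀ {X Y : Sch R}, FT True X → Nonempty (X ≅ Y) → ∀ m, D.L m X = D.L m Y ∧ D.χ m X = D.χ m Y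
  triple : ∀ {Z X U : Sch R} (i : Z ⟶ X) (j : U ⟶ X), FT True X → IsTriple i j →
    ∀ m, D.L m X = D.L m Z * D.L m U ∧ D.χ m X = D.χ m Z + D.χ m U
  bundle : ∀ (B : Type) [CommRing B] [Algebra R B] [Algebra.FiniteType R B] (r : ℕ)
    (f : Fin r → B) (U : Sch R) (j : U ⟶ aff R B), IsOpenImmersion j.left →
    Set.range j.left = {x : PrimeSpectrum B | ∃ l, f l ∉ x.asIdeal} →
    ∀ m, D.L m (aff R (Jou f)) = D.L (m + (1 - r)) U ∧
      D.χ m (aff R (Jou f)) = D.χ (m + (1 - r)) U
  torus : ∀ (B : Type) [CommRing B] [Algebra R B] [Algebra.FiniteType R B] (m : ℤ),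
    D.L m (aff R (LaurentPolynomial B)) = D.L (m - 1) (aff R B) / D.L m (aff R B) ∧
      D.χ m (aff R (LaurentPolynomial B)) = D.χ (m - 1) (aff R B) - D.χ m (aff R B)
  neg : ∀ (B : Type) [CommRing B] [Algebra R B] [Algebra.FiniteType R B] (m : ℤ), m < 0 →
    D.L m (aff R B) = 1 ∧ D.χ m (aff R B) = 0

/-- For all `m` the function `L m X` has a pole of order `χ m X` at `t = 0`. -/
def PoleFormula (D : PoleData R) (X : Sch R) : Prop := ∀ m, HasPole (D.L m X) (D.χ m X)

theorem bnd_pole {D : PoleData R} (hD : IsPole D) (h1 : PoleFormula D (aff R R)) :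
    Bnd True (PoleFormula D) := by
  let D' : AddData R (Additive (ℝ → ℂˣ) × ℤ) :=
    { fin := fun _ _ => True, e := fun m X => (Additive.ofMul (D.L m X), D.χ m X) }
  have h2 : ∀ X, PoleFormula D X ↔ InAll D' poleGroup X := fun X =>
    ⟨fun h m => ⟨trivial, h m⟩, fun h m => (h m).2⟩
  have h3 : IsAdd D' :=
    { iso := fun hX e m => ⟨fun _ => trivial, by
        obtain ⟨h3, h4⟩ := hD.iso hX e m
        exact Prod.ext (congrArg Additive.ofMul h3) h4⟩
      triple := fun i j hX ht m =>
        { total := fun _ _ => trivial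
          opened := fun _ _ => trivial
          closed := fun _ _ => trivial
          add := fun _ _ _ => by
            obtain ⟨h3, h4⟩ := hD.triple i j hX ht m
            exact Prod.ext (congrArg Additive.ofMul h3) h4 }
      bundle := fun B _ _ _ r f U j hj hr m => ⟨Iff.rfl, by
        obtain ⟨h3, h4⟩ := hD.bundle B r f U j hj hr m
        exact Prod.ext (congrArg Additive.ofMul h3) h4⟩
      torus := fun B _ _ _ m => ⟨fun _ => trivial, by
        obtain ⟨h3, h4⟩ := hD.torus B m
        exact Prod.ext (congrArg Additive.ofMul h3) h4⟩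
      neg := fun B _ _ _ m hm => by
        obtain ⟨h3, h4⟩ := hD.neg B m hm
        exact Prod.ext (congrArg Additive.ofMul h3) h4 }
  have h4 := bnd_add (S := poleGroup) h3 ((h2 _).mp h1)
  have h5 : PoleFormula D = InAll D' poleGroup := funext fun X => propext (h2 X)
  rw [h5]
  exact h4

end Pool.Agent.Q193.LT
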