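import Pool.Agent.Q193.LT.Add

/-!
# Ranks and orders of vanishing
-/

set_option autoImplicit false

open CategoryTheory CategoryTheory.Limits AlgebraicGeometry Pool.Agent.Y116.UV Pool.Agent.Z125.UN

namespace Pool.Agent.Q193.LT

variable {R : Type} [CommRing R]

/-- For every integer `m`: a finiteness condition, an order of vanishing and a rank. -/
structure RankData (R : Type) [CommRing R] where
  /-- the finiteness condition -/
  fin : ℤ → Sch R → Prop
  /-- the order of vanishing -/
  ord : ℤ → Sch R → ℤ
  /-- the rank -/
  rk : ℤ → Sch R → ℤ

/-- The orders are additive, and the ranks are additive if they are finite. -/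
structure IsRank (D : RankData R) : Prop where
  ord : IsAdd (R := R) { fin := D.fin, e := D.ord }
  rk : IsAdd (R := R) { fin := D.fin, e := D.rk }

/-- For all `m`, the rank is finite and equal to the order of vanishing. -/
def RankFormula (D : RankData R) (X : Sch R) : Prop := ∀ m, D.fin m X ∧ D.ord m X = D.rk m X

theorem bnd_rank {D : RankData R} (hD : IsRank D) (h1 : RankFormula D (aff R R)) :
    Bnd True (RankFormula D) := by
  let D' : AddData R ℤ := { fin := D.fin, e := fun m X => D.ord m X - D.rk m X }
  have h2 : ∀ X, RankFormula D X ↔ InAll D' ⊥ X := fun X => by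
    constructor
    · intro h m
      exact ⟨(h m).1, by rw [AddSubgroup.mem_bot]; exact sub_eq_zero.mpr (h m).2⟩
    · intro h m
      have h3 := (h m).2
      rw [AddSubgroup.mem_bot] at h3
      exact ⟨(h m).1, sub_eq_zero.mp h3⟩
  have h3 : IsAdd D' :=
    { iso := fun hX e m => ⟨(hD.ord.iso hX e m).1, by
        have h3 := (hD.ord.iso hX e m).2
        have h4 := (hD.rk.iso hX e m).2
        simp only at h3 h4
        change D.ord m _ - D.rk m _ = D.ord m _ - D.rk m _
        rw [h3, h4]⟩
      triple := fun i j hX ht m =>
        { total := (hD.ord.triple i j hX ht m).total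
          opened := (hD.ord.triple i j hX ht m).opened
          closed := (hD.ord.triple i j hX ht m).closed
          add := fun hZ hX' hU => by
            have h3 := (hD.ord.triple i j hX ht m).add hZ hX' hU
            have h4 := (hD.rk.triple i j hX ht m).add hZ hX' hU
            simp only at h3 h4
            change D.ord m _ - D.rk m _ = (D.ord m _ - D.rk m _) + (D.ord m _ - D.rk m _)
            rw [h3, h4]
            ring }
      bundle := fun B _ _ _ r f U j hj hr m => ⟨(hD.ord.bundle B r f U j hj hr m).1, by
        have h3 := (hD.ord.bundle B r f U j hj hr m).2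
        have h4 := (hD.rk.bundle B r f U j hj hr m).2
        simp only at h3 h4
        change D.ord m _ - D.rk m _ = D.ord _ _ - D.rk _ _
        rw [h3, h4]⟩
      torus := fun B _ _ _ m => ⟨(hD.ord.torus B m).1, by
        have h3 := (hD.ord.torus B m).2
        have h4 := (hD.rk.torus B m).2
        simp only at h3 h4
        change D.ord m _ - D.rk m _ = (D.ord (m - 1) _ - D.rk (m - 1) _) -
          (D.ord m _ - D.rk m _)
        rw [h3, h4]
        ring⟩
      neg := fun B _ _ _ m hm => by
        have h3 := hD.ord.neg B m hm
        have h4 := hD.rk.neg B m hm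
        simp only at h3 h4
        change D.ord m _ - D.rk m _ = 0
        rw [h3, h4, sub_zero] }
  have h4 := bnd_add (S := ⊥) h3 ((h2 _).mp h1)
  have h5 : RankFormula D = InAll D' ⊥ := funext fun X => propext (h2 X)
  rw [h5]
  exact h4

end Pool.Agent.Q193.LT
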