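import Pool.Agent.Q193.LT.Rank

/-!
# Additive invariants, the formula for `X × 𝔾_m` under finiteness

The variant of `IsAdd` and `IsRank` in which the formula `e m (X × 𝔾_m) = e (m - 1) X - e m X` is required only
if the invariants of `X × 𝔾_m` (and so those of `X`) are finite.
-/

set_option autoImplicit false

open CategoryTheory CategoryTheory.Limits AlgebraicGeometry Pool.Agent.Y116.UV Pool.Agent.Z125.UN

universe w

namespace Pool.Agent.Q193.LT.Fin

variable {R : Type} [CommRing R] {G : Type w} [AddCommGroup G]

/-- The standard properties. -/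
structure IsAdd (D : AddData R G) : Prop where
  iso : ∀ {X Y : Sch R}, FT True X → Nonempty (X ≅ Y) → ∀ m,
    (D.fin m X → D.fin m Y) ∧ D.e m X = D.e m Y
  triple : ∀ {Z X U : Sch R} (i : Z ⟶ X) (j : U ⟶ X), FT True X → IsTriple i j →
    ∀ m, AddTriple D m Z X U
  bundle : ∀ (B : Type) [CommRing B] [Algebra R B] [Algebra.FiniteType R B] (r : ℕ)
    (f : Fin r → B) (U : Sch R) (j : U ⟶ aff R B), IsOpenImmersion j.left →
    Set.range j.left = {x : PrimeSpectrum B | ∃ l, f l ∉ x.asIdeal} →
    ∀ m, (D.fin m (aff R (Jou f)) ↔ D.fin (m + (1 - r)) U) ∧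
      D.e m (aff R (Jou f)) = D.e (m + (1 - r)) U
  torus : ∀ (B : Type) [CommRing B] [Algebra R B] [Algebra.FiniteType R B] (m : ℤ),
    D.fin m (aff R (LaurentPolynomial B)) → D.fin m (aff R B) ∧ D.fin (m - 1) (aff R B) ∧
      D.e m (aff R (LaurentPolynomial B)) = D.e (m - 1) (aff R B) - D.e m (aff R B)
  neg : ∀ (B : Type) [CommRing B] [Algebra R B] [Algebra.FiniteType R B] (m : ℤ), m < 0 →
    D.e m (aff R B) = 0

variable {D : AddData R G} {S : AddSubgroup G}

/-- Closure properties. -/
theorem bnd_add (hD : IsAdd D) (h1 : InAll D S (aff R R)) : Bnd True (InAll D S) := by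
  have hbun : ∀ (B : Type) [CommRing B] [Algebra R B] [Algebra.FiniteType R B] (r : ℕ)
      (f : Fin r → B) (U : Sch R) (j : U ⟶ aff R B), IsOpenImmersion j.left →
      Set.range j.left = {x : PrimeSpectrum B | ∃ l, f l ∉ x.asIdeal} →
      (InAll D S U ↔ InAll D S (aff R (Jou f))) := by
    intro B _ _ _ r f U j hj hr
    constructor
    · intro h m
      obtain ⟨h2, h3⟩ := hD.bundle B r f U j hj hr m
      exact ⟨h2.mpr (h _).1, by rw [h3]; exact (h _).2⟩
    · intro h m
      obtain ⟨h2, h3⟩ := hD.bundle B r f U j hj hr (m - (1 - r))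
      rw [sub_add_cancel] at h2 h3
      exact ⟨h2.mp (h _).1, by rw [← h3]; exact (h _).2⟩
  exact
  { iso := fun hX e h m => by
      obtain ⟨h2, h3⟩ := hD.iso hX e m
      exact ⟨h2 (h m).1, by rw [← h3]; exact (h m).2⟩
    total := fun i j hX ht hZ hU m => by
      have h := hD.triple i j hX ht m
      have h2 := h.total (hZ m).1 (hU m).1
      exact ⟨h2, by rw [h.add (hZ m).1 h2 (hU m).1]; exact S.add_mem (hZ m).2 (hU m).2⟩
    opened := fun i j hX ht hZ hX' m => by
      have h := hD.triple i j hX ht m
      have h2 := h.opened (hZ m).1 (hX' m).1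
      have h3 := h.add (hZ m).1 (hX' m).1 h2
      refine ⟨h2, ?_⟩
      rw [← sub_eq_iff_eq_add'.mpr h3]
      exact S.sub_mem (hX' m).2 (hZ m).2
    closed := fun i j hX ht hX' hU m => by
      have h := hD.triple i j hX ht m
      have h2 := h.closed (hX' m).1 (hU m).1
      have h3 := h.add h2 (hX' m).1 (hU m).1
      refine ⟨h2, ?_⟩
      rw [← sub_eq_iff_eq_add.mpr h3]
      exact S.sub_mem (hX' m).2 (hU m).2
    space := fun n => by
      have h2 := (hbun R (n + 1) (f1 R n) (aff R R) (𝟙 _) inferInstance (range_id n)).mp h1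
      intro m
      obtain ⟨h3, h4⟩ := hD.iso (ft_aff True) ⟨(affIso (jouOne R n)).symm⟩ m
      exact ⟨h3 (h2 m).1, by rw [← h4]; exact (h2 m).2⟩
    jouanolou := fun B _ _ _ m f U j hj hr h => (hbun B m f U j hj hr).mpr h
    torus := fun B _ _ _ h => by
      have h2 : ∀ (n : ℕ) (m : ℤ), m < n → D.e m (aff R B) ∈ S := by
        intro n
        induction n with
        | zero =>
          intro m hm
          rw [hD.neg B m (by simpa using hm)]
          exact S.zero_mem
        | succ n ih =>
          intro m hm
          have h3 := (hD.torus B m (h m).1).2.2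
          have h4 : D.e m (aff R B) = D.e (m - 1) (aff R B) -
              D.e m (aff R (LaurentPolynomial B)) := by rw [h3]; abel
          rw [h4]
          exact S.sub_mem (ih (m - 1) (by push_cast at hm; omega)) (h m).2
      intro m
      exact ⟨(hD.torus B m (h m).1).1, h2 (m.toNat + 1) m (by push_cast; omega)⟩
    bundle := fun B _ _ _ m f U j hj hr h => (hbun B m f U j hj hr).mp h }

/-- The orders are additive, and the ranks are additive if they are finite. -/
structure IsRank (D : RankData R) : Prop where
  ord : IsAdd (R := R) { fin := D.fin, e := D.ord }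
  rk : IsAdd (R := R) { fin := D.fin, e := D.rk }

theorem bnd_rank {D : RankData R} (hD : IsRank D) (h1 : RankFormula D (aff R R)) :
    Bnd True (RankFormula D) := by
  let D' : AddData R ℤ := { fin := D.fin, e := fun m X => D.ord m X - D.rk m X }
  have h2 : ∀ X, RankFormula D X ↔ InAll D' ⊥ X := fun X => by
    constructor
    · intro h m
      exact ⟨(h m).1, by rw [AddSubgroup.mem_bot]; exact sub_eq_zero.mpr (h m).2⟩
    · intro h m
      have h3 := (h m).2
      rw [AddSubgroup.mem_bot] at h3
      exact ⟨(h m).1, sub_eq_zero.mp h3⟩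
  have h3 : IsAdd D' :=
    { iso := fun hX e m => ⟨(hD.ord.iso hX e m).1, by
        have h3 := (hD.ord.iso hX e m).2
        have h4 := (hD.rk.iso hX e m).2
        simp only at h3 h4
        change D.ord m _ - D.rk m _ = D.ord m _ - D.rk m _
        rw [h3, h4]⟩
      triple := fun i j hX ht m =>
        { total := (hD.ord.triple i j hX ht m).total
          opened := (hD.ord.triple i j hX ht m).opened
          closed := (hD.ord.triple i j hX ht m).closed
          add := fun hZ hX' hU => by
            have h3 := (hD.ord.triple i j hX ht m).add hZ hX' hU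
            have h4 := (hD.rk.triple i j hX ht m).add hZ hX' hU
            simp only at h3 h4
            change D.ord m _ - D.rk m _ = (D.ord m _ - D.rk m _) + (D.ord m _ - D.rk m _)
            rw [h3, h4]
            ring }
      bundle := fun B _ _ _ r f U j hj hr m => ⟨(hD.ord.bundle B r f U j hj hr m).1, by
        have h3 := (hD.ord.bundle B r f U j hj hr m).2
        have h4 := (hD.rk.bundle B r f U j hj hr m).2
        simp only at h3 h4
        change D.ord m _ - D.rk m _ = D.ord _ _ - D.rk _ _
        rw [h3, h4]⟩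
      torus := fun B _ _ _ m hm => by
        obtain ⟨h5, h6, h3⟩ := hD.ord.torus B m hm
        obtain ⟨_, _, h4⟩ := hD.rk.torus B m hm
        simp only at h3 h4
        refine ⟨h5, h6, ?_⟩
        change D.ord m _ - D.rk m _ = (D.ord _ _ - D.rk _ _) - (D.ord _ _ - D.rk _ _)
        rw [h3, h4]
        ring
      neg := fun B _ _ _ m hm => by
        have h3 := hD.ord.neg B m hm
        have h4 := hD.rk.neg B m hm
        simp only at h3 h4
        change D.ord m _ - D.rk m _ = 0
        rw [h3, h4, sub_zero] }
  have h4 := bnd_add (S := ⊥) h3 ((h2 _).mp h1)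
  have h5 : RankFormula D = InAll D' ⊥ := funext fun X => propext (h2 X)
  rw [h5]
  exact h4

end Pool.Agent.Q193.LT.Fin
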