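import Pool.Agent.Q193.LT.Origin

/-!
# Properties of the simple objects that occur in the cohomology of schemes
-/

set_option autoImplicit false

open CategoryTheory CategoryTheory.Limits AlgebraicGeometry Pool.Agent.Y116.UV Pool.Agent.Z125.UN

universe v u

namespace Pool.Agent.Q193.LT

variable {k : Type} [Field k] {A : Type u} [Category.{v} A] [Abelian A]

/-- All simple objects that occur in a Tate twist of the cohomology `D.H i X` of a scheme `X` in the class
`C` have the property `P`. -/
def SimplesOf (D : CompactData k A) (C : Sch k → Prop) (P : A → Prop) : Prop :=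
  ∀ S : A, Simple S → (∃ X : Sch k, C X ∧ ∃ i, Occurs D S (D.H i X)) → P S

/-- The class of the hypersurfaces `T(x, y, z) = 1` of the trilinear forms over `k` with a block of at most
`m` variables. -/
def BlockForms (k : Type) [Field k] (m : ℕ) (X : Sch k) : Prop :=
  ∃ (a b c : ℕ) (T : Fin a → Fin b → Fin c → k), (a ≤ m ∨ b ≤ m ∨ c ≤ m) ∧ X = hypS T

/-- The class of the hypersurfaces `T(x, y, z) = 1` of all trilinear forms over `k`. -/
def AllForms (k : Type) [Field k] (X : Sch k) : Prop :=
  ∃ (a b c : ℕ) (T : Fin a → Fin b → Fin c → k), X = hypS T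

/-- The class of the hypersurfaces `∑_{(i, j, l) ∈ H} x_i y_j z_l = 1` of the tripartite hypergraphs `H`. -/
def GraphForms (k : Type) [Field k] (X : Sch k) : Prop :=
  ∃ (a b c : ℕ) (H : Finset (Fin a × Fin b × Fin c)), X = tripS k H

/-- The class of the smooth projective schemes. -/
def AllProj (k : Type) [Field k] (X : Sch k) : Prop := SmoothProj X

/-- The class of the smooth projective schemes of dimension at most `n`. -/
def DimProj (k : Type) [Field k] (n : ℕ) (X : Sch k) : Prop :=
  SmoothProj X ∧ topologicalKrullDim X.left ≤ n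

variable {D : CompactData k A} {P : A → Prop}

/-- The class of the point `Spec k`. -/
def IsPoint (k : Type) [Field k] (X : Sch k) : Prop := X = aff k k

/-- A simple object occurs in the cohomology of a smooth projective scheme, if it occurs in the cohomology
of a scheme `∑_{(i, j, l) ∈ H} x_i y_j z_l = 1` or of the point, and conversely, over a prime field. -/
theorem origin_proj_graph [PerfectField k] (hk : Frac k) (hD : IsCompact D) (hg : Generated D) (ρ : A)
    [Simple ρ] :
    (∃ Y : Sch k, SmoothProj Y ∧ ∃ i, Occurs D ρ (D.H i Y)) ↔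
    (∃ i, Occurs D ρ (D.H i (aff k k))) ∨
      ∃ (a b c : ℕ) (H : Finset (Fin a × Fin b × Fin c)), ∃ i, Occurs D ρ (D.H i (tripS k H)) := by
  rw [← origin_graph hD ρ hk]
  constructor
  · exact occurs_ft ρ
  · intro h
    exact (origin_proj_all hD ρ hg).mpr ((origin_all hD ρ).mp h)

/-- All smooth projective schemes and all trilinear forms. -/
theorem simples_all [PerfectField k] (hD : IsCompact D) (hg : Generated D)
    (point : SimplesOf D (IsPoint k) P) :
    SimplesOf D (AllProj k) P ↔ SimplesOf D (AllForms k) P := by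
  constructor
  · rintro h S hS ⟨X, ⟨a, b, c, T, rfl⟩, i, hi⟩
    exact h S hS ((origin_proj_all hD S hg).mpr (Or.inr ⟨a, b, c, T, i, hi⟩))
  · intro h S hS hX
    rcases (origin_proj_all hD S hg).mp hX with h1 | ⟨a, b, c, T, i, hi⟩
    · exact point S hS ⟨_, rfl, h1⟩
    · exact h S hS ⟨_, ⟨a, b, c, T, rfl⟩, i, hi⟩

/-- All smooth projective schemes and the tripartite hypergraphs, over a prime field. -/
theorem simples_graph [PerfectField k] (hk : Frac k) (hD : IsCompact D) (hg : Generated D)
    (point : SimplesOf D (IsPoint k) P) :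
    SimplesOf D (AllProj k) P ↔ SimplesOf D (GraphForms k) P := by
  constructor
  · rintro h S hS ⟨X, ⟨a, b, c, H, rfl⟩, i, hi⟩
    exact h S hS ((origin_proj_graph hk hD hg S).mpr (Or.inr ⟨a, b, c, H, i, hi⟩))
  · intro h S hS hX
    rcases (origin_proj_graph hk hD hg S).mp hX with h1 | ⟨a, b, c, H, i, hi⟩
    · exact point S hS ⟨_, rfl, h1⟩
    · exact h S hS ⟨_, ⟨a, b, c, H, rfl⟩, i, hi⟩

/-- Dimension at most `n` and blocks of at most `n + 2` variables. -/
theorem simples_dim [PerfectField k] (hD : IsCompact D) (hg : Generated D)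
    (point : SimplesOf D (IsPoint k) P) (n : ℕ) :
    SimplesOf D (DimProj k n) P ↔ SimplesOf D (BlockForms k (n + 2)) P := by
  constructor
  · rintro h S hS ⟨X, ⟨a, b, c, T, hm, rfl⟩, i, hi⟩
    obtain ⟨Y, hY, hn, j, hj⟩ := (origin_proj hD S hg n).mpr (Or.inr ⟨a, b, c, T, hm, i, hi⟩)
    exact h S hS ⟨Y, ⟨hY, hn⟩, j, hj⟩
  · rintro h S hS ⟨Y, ⟨hY, hn⟩, i, hi⟩
    rcases (origin_proj hD S hg n).mp ⟨Y, hY, hn, i, hi⟩ with h1 | ⟨a, b, c, T, hm, j, hj⟩
    · exact point S hS ⟨_, rfl, h1⟩
    · exact h S hS ⟨_, ⟨a, b, c, T, hm, rfl⟩, j, hj⟩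

end Pool.Agent.Q193.LT
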