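import Pool.Agent.Q193.LT.Add

/-!
# Additive invariants that vanish for large indices

The variant of `IsAdd` for the orders of zeta functions at `s = m` and the groups of cycles of dimension
`m`: the invariants of every scheme vanish for all large `m`.
-/

set_option autoImplicit false

open CategoryTheory CategoryTheory.Limits AlgebraicGeometry Pool.Agent.Y116.UV Pool.Agent.Z125.UN

universe w

namespace Pool.Agent.Q193.LT

variable {R : Type} [CommRing R] {G : Type w} [AddCommGroup G]

/-- The standard properties. -/
structure IsTop (D : AddData R G) : Prop where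
  iso : ∀ {X Y : Sch R}, FT True X → Nonempty (X ≅ Y) → ∀ m,
    (D.fin m X → D.fin m Y) ∧ D.e m X = D.e m Y
  triple : ∀ {Z X U : Sch R} (i : Z ⟶ X) (j : U ⟶ X), FT True X → IsTriple i j →
    ∀ m, AddTriple D m Z X U
  bundle : ∀ (B : Type) [CommRing B] [Algebra R B] [Algebra.FiniteType R B] (r : ℕ)
    (f : Fin r → B) (U : Sch R) (j : U ⟶ aff R B), IsOpenImmersion j.left →
    Set.range j.left = {x : PrimeSpectrum B | ∃ l, f l ∉ x.asIdeal} →
    ∀ m, (D.fin m (aff R (Jou f)) ↔ D.fin (m + (1 - r)) U) ∧
      D.e m (aff R (Jou f)) = D.e (m + (1 - r)) U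
  torus : ∀ (B : Type) [CommRing B] [Algebra R B] [Algebra.FiniteType R B] (m : ℤ),
    D.fin m (aff R (LaurentPolynomial B)) → D.fin m (aff R B) ∧ D.fin (m - 1) (aff R B) ∧
      D.e m (aff R (LaurentPolynomial B)) = D.e (m - 1) (aff R B) - D.e m (aff R B)
  top : ∀ (B : Type) [CommRing B] [Algebra R B] [Algebra.FiniteType R B], ∃ N : ℤ, ∀ m : ℤ,
    N ≤ m → D.e m (aff R B) = 0

variable {D : AddData R G} {S : AddSubgroup G}

/-- Closure properties. -/
theorem bnd_top (hD : IsTop D) (h1 : InAll D S (aff R R)) : Bnd True (InAll D S) := by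
  have hbun : ∀ (B : Type) [CommRing B] [Algebra R B] [Algebra.FiniteType R B] (r : ℕ)
      (f : Fin r → B) (U : Sch R) (j : U ⟶ aff R B), IsOpenImmersion j.left →
      Set.range j.left = {x : PrimeSpectrum B | ∃ l, f l ∉ x.asIdeal} →
      (InAll D S U ↔ InAll D S (aff R (Jou f))) := by
    intro B _ _ _ r f U j hj hr
    constructor
    · intro h m
      obtain ⟨h2, h3⟩ := hD.bundle B r f U j hj hr m
      exact ⟨h2.mpr (h _).1, by rw [h3]; exact (h _).2⟩
    · intro h m
      obtain ⟨h2, h3⟩ := hD.bundle B r f U j hj hr (m - (1 - r))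
      rw [sub_add_cancel] at h2 h3
      exact ⟨h2.mp (h _).1, by rw [← h3]; exact (h _).2⟩
  exact
  { iso := fun hX e h m => by
      obtain ⟨h2, h3⟩ := hD.iso hX e m
      exact ⟨h2 (h m).1, by rw [← h3]; exact (h m).2⟩
    total := fun i j hX ht hZ hU m => by
      have h := hD.triple i j hX ht m
      have h2 := h.total (hZ m).1 (hU m).1
      exact ⟨h2, by rw [h.add (hZ m).1 h2 (hU m).1]; exact S.add_mem (hZ m).2 (hU m).2⟩
    opened := fun i j hX ht hZ hX' m => by
      have h := hD.triple i j hX ht m
      have h2 := h.opened (hZ m).1 (hX' m).1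
      have h3 := h.add (hZ m).1 (hX' m).1 h2
      refine ⟨h2, ?_⟩
      rw [← sub_eq_iff_eq_add'.mpr h3]
      exact S.sub_mem (hX' m).2 (hZ m).2
    closed := fun i j hX ht hX' hU m => by
      have h := hD.triple i j hX ht m
      have h2 := h.closed (hX' m).1 (hU m).1
      have h3 := h.add h2 (hX' m).1 (hU m).1
      refine ⟨h2, ?_⟩
      rw [← sub_eq_iff_eq_add.mpr h3]
      exact S.sub_mem (hX' m).2 (hU m).2
    space := fun n => by
      have h2 := (hbun R (n + 1) (f1 R n) (aff R R) (𝟙 _) inferInstance (range_id n)).mp h1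
      intro m
      obtain ⟨h3, h4⟩ := hD.iso (ft_aff True) ⟨(affIso (jouOne R n)).symm⟩ m
      exact ⟨h3 (h2 m).1, by rw [← h4]; exact (h2 m).2⟩
    jouanolou := fun B _ _ _ m f U j hj hr h => (hbun B m f U j hj hr).mpr h
    torus := fun B _ _ _ h => by
      obtain ⟨N, hN⟩ := hD.top B
      have h2 : ∀ (n : ℕ) (m : ℤ), N ≤ m + n → D.e m (aff R B) ∈ S := by
        intro n
        induction n with
        | zero =>
          intro m hm
          rw [hN m (by simpa using hm)]
          exact S.zero_mem
        | succ n ih =>
          intro m hm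
          have h3 := (hD.torus B (m + 1) (h (m + 1)).1).2.2
          rw [add_sub_cancel_right] at h3
          have h4 : D.e m (aff R B) = D.e (m + 1) (aff R (LaurentPolynomial B)) +
              D.e (m + 1) (aff R B) := by rw [h3]; abel
          rw [h4]
          exact S.add_mem (h (m + 1)).2 (ih (m + 1) (by push_cast at hm; omega))
      intro m
      exact ⟨(hD.torus B m (h m).1).1, h2 (N - m).toNat m (by have := Int.self_le_toNat (N - m); omega)⟩
    bundle := fun B _ _ _ m f U j hj hr h => (hbun B m f U j hj hr).mp h }

/-- For every integer `n`: a finiteness condition, an order and an Euler characteristic. -/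
structure SouleData (R : Type) [CommRing R] where
  /-- the finiteness condition and the continuation of the zeta function -/
  fin : ℤ → Sch R → Prop
  /-- the order of the zeta function at `s = n` -/
  ord : ℤ → Sch R → ℤ
  /-- the negative Euler characteristic `∑_i (-1)^(i+1) dim K'_i(X)_(n)` -/
  chi : ℤ → Sch R → ℤ

/-- The orders and the Euler characteristics have the standard properties. -/
structure IsSoule (D : SouleData R) : Prop where
  ord : IsTop (R := R) { fin := D.fin, e := D.ord }
  chi : IsTop (R := R) { fin := D.fin, e := D.chi }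

/-- Soulé's formula for `X` at all integers. -/
def SouleFormula (D : SouleData R) (X : Sch R) : Prop := ∀ n, D.fin n X ∧ D.ord n X = D.chi n X

theorem bnd_soule {D : SouleData R} (hD : IsSoule D) (h1 : SouleFormula D (aff R R)) :
    Bnd True (SouleFormula D) := by
  let D' : AddData R ℤ := { fin := D.fin, e := fun m X => D.ord m X - D.chi m X }
  have h2 : ∀ X, SouleFormula D X ↔ InAll D' ⊥ X := fun X => by
    constructor
    · intro h m
      exact ⟨(h m).1, by rw [AddSubgroup.mem_bot]; exact sub_eq_zero.mpr (h m).2⟩
    · intro h m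
      have h3 := (h m).2
      rw [AddSubgroup.mem_bot] at h3
      exact ⟨(h m).1, sub_eq_zero.mp h3⟩
  have h3 : IsTop D' :=
    { iso := fun hX e m => ⟨(hD.ord.iso hX e m).1, by
        have h3 := (hD.ord.iso hX e m).2
        have h4 := (hD.chi.iso hX e m).2
        simp only at h3 h4
        change D.ord m _ - D.chi m _ = D.ord m _ - D.chi m _
        rw [h3, h4]⟩
      triple := fun i j hX ht m =>
        { total := (hD.ord.triple i j hX ht m).total
          opened := (hD.ord.triple i j hX ht m).opened
          closed := (hD.ord.triple i j hX ht m).closed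
          add := fun hZ hX' hU => by
            have h3 := (hD.ord.triple i j hX ht m).add hZ hX' hU
            have h4 := (hD.chi.triple i j hX ht m).add hZ hX' hU
            simp only at h3 h4
            change D.ord m _ - D.chi m _ = (D.ord m _ - D.chi m _) + (D.ord m _ - D.chi m _)
            rw [h3, h4]
            ring }
      bundle := fun B _ _ _ r f U j hj hr m => ⟨(hD.ord.bundle B r f U j hj hr m).1, by
        have h3 := (hD.ord.bundle B r f U j hj hr m).2
        have h4 := (hD.chi.bundle B r f U j hj hr m).2
        simp only at h3 h4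
        change D.ord m _ - D.chi m _ = D.ord _ _ - D.chi _ _
        rw [h3, h4]⟩
      torus := fun B _ _ _ m hm => by
        obtain ⟨h5, h6, h3⟩ := hD.ord.torus B m hm
        obtain ⟨_, _, h4⟩ := hD.chi.torus B m hm
        simp only at h3 h4
        refine ⟨h5, h6, ?_⟩
        change D.ord m _ - D.chi m _ = (D.ord _ _ - D.chi _ _) - (D.ord _ _ - D.chi _ _)
        rw [h3, h4]
        ring
      top := fun B _ _ _ => by
        obtain ⟨N, hN⟩ := hD.ord.top B
        obtain ⟨N', hN'⟩ := hD.chi.top B
        refine ⟨max N N', fun m hm => ?_⟩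
        have h3 := hN m ((le_max_left _ _).trans hm)
        have h4 := hN' m ((le_max_right _ _).trans hm)
        simp only at h3 h4
        change D.ord m _ - D.chi m _ = 0
        rw [h3, h4, sub_zero] }
  have h4 := bnd_top h3 ((h2 _).mp h1)
  have h5 : SouleFormula D = InAll D' ⊥ := funext fun X => propext (h2 X)
  rw [h5]
  exact h4

end Pool.Agent.Q193.LT
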