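import Pool.Agent.Q193.LT.Sums
import Pool.Agent.Q193.LT.Crit

/-!
# Functorial subspaces of realizations
-/

set_option autoImplicit false

open CategoryTheory CategoryTheory.Limits AlgebraicGeometry Pool.Agent.Y116.UV Pool.Agent.Z125.UN

universe w v u w'

namespace Pool.Agent.Q193.LT

variable {R : Type} [CommRing R] {A : Type u} [Category.{v} A] [Abelian A] {E : Type w'} [Field E]

/-- A functorial subspace of the realization `ω`: for every object `N` a subspace `V N` of the vector
space `ω(N)` which is respected by the morphisms. -/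
structure SubFunctor (ω : A ⥤ ModuleCat.{w} E) where
  /-- the subspace of `ω(N)` -/
  V : ∀ N : A, Submodule E (ω.obj N)
  map : ∀ {N N' : A} (f : N ⟶ N') (x : ω.obj N), x ∈ V N → (ω.map f).hom x ∈ V N'

variable {D : CompactData R A} {ω : A ⥤ ModuleCat.{w} E}

/-- The two functorial subspaces are equal for `N` and all its Tate twists. -/
def SameSub (D : CompactData R A) (V W : SubFunctor ω) (N : A) : Prop :=
  ∀ a : ℤ, V.V ((D.tw a).obj N) = W.V ((D.tw a).obj N)

lemma sub_retract (V W : SubFunctor ω) {N N' : A} (i : N ⟶ N') (r : N' ⟶ N) (h : i ≫ r = 𝟙 N)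
    (hN : V.V N' ≤ W.V N') : V.V N ≤ W.V N := by
  intro x hx
  have h1 : (ω.map r).hom ((ω.map i).hom x) = x := by
    have h2 : ω.map i ≫ ω.map r = 𝟙 _ := by rw [← ω.map_comp, h, ω.map_id]
    exact congrArg (fun t : ω.obj N ⟶ ω.obj N => t.hom x) h2
  rw [← h1]
  exact W.map r _ (hN (V.map i x hx))

lemma sub_sum [ω.Additive] (V W : SubFunctor ω) {N N' : A} (hN : V.V N ≤ W.V N)
    (hN' : V.V N' ≤ W.V N') : V.V (N ⊞ N') ≤ W.V (N ⊞ N') := by
  intro x hx
  have h1 : (ω.map (biprod.inl : N ⟶ N ⊞ N')).hom ((ω.map biprod.fst).hom x) +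
      (ω.map (biprod.inr : N' ⟶ N ⊞ N')).hom ((ω.map biprod.snd).hom x) = x := by
    have h2 : ω.map (biprod.fst : N ⊞ N' ⟶ N) ≫ ω.map biprod.inl +
        ω.map (biprod.snd : N ⊞ N' ⟶ N') ≫ ω.map biprod.inr = 𝟙 _ := by
      rw [← ω.map_comp, ← ω.map_comp, ← ω.map_add, biprod.total, ω.map_id]
    exact congrArg (fun t : ω.obj (N ⊞ N') ⟶ ω.obj (N ⊞ N') => t.hom x) h2
  rw [← h1]
  exact Submodule.add_mem _ (W.map _ _ (hN (V.map _ _ hx))) (W.map _ _ (hN' (V.map _ _ hx)))

/-- The objects for which the two subspaces are equal, for all twists, form a Serre class, in a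
semisimple category. -/
theorem sameSub_serre (hD : IsCompact D) [ω.Additive]
    (hss : ∀ {X Y : A} (f : X ⟶ Y), Mono f → ∃ r : Y ⟶ X, f ≫ r = 𝟙 X) (V W : SubFunctor ω) :
    IsTateSerre D (SameSub D V W) := by
  have hta := hD.twAdditive
  have hret : ∀ {N N' : A} (i : N ⟶ N') (r : N' ⟶ N), i ≫ r = 𝟙 N → V.V N' = W.V N' →
      V.V N = W.V N := fun i r h hN =>
    le_antisymm (sub_retract V W i r h hN.le) (sub_retract W V i r h hN.ge)
  have h := serre_of_semisimple (S := SameSub D V W) hss ?_ ?_ ?_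
  · refine { toIsSerre := h, twist := ?_ }
    intro a M hM b
    obtain ⟨e⟩ := hD.twAdd a b
    exact hret (e.hom.app M) (e.inv.app M) (e.hom_inv_id_app M) (hM (a + b))
  · intro X hX a
    have h1 : IsZero (ω.obj ((D.tw a).obj X)) := ω.map_isZero ((D.tw a).map_isZero hX)
    have : Subsingleton (ω.obj ((D.tw a).obj X)) := ModuleCat.subsingleton_of_isZero h1
    exact Subsingleton.elim _ _
  · intro X Y i r hir hY a
    exact hret ((D.tw a).map i) ((D.tw a).map r) (by rw [← (D.tw a).map_comp, hir, (D.tw a).map_id])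
      (hY a)
  · intro X Y hX hY a
    let e : (D.tw a).obj (X ⊞ Y) ⟶ (D.tw a).obj X ⊞ (D.tw a).obj Y :=
      biprod.lift ((D.tw a).map biprod.fst) ((D.tw a).map biprod.snd)
    have he : e ≫ biprod.desc ((D.tw a).map biprod.inl) ((D.tw a).map biprod.inr) = 𝟙 _ := by
      rw [biprod.lift_desc, ← (D.tw a).map_comp, ← (D.tw a).map_comp, ← (D.tw a).map_add,
        biprod.total, (D.tw a).map_id]
    exact hret e _ he (le_antisymm (sub_sum V W (hX a).le (hY a).le)
      (sub_sum W V (hX a).ge (hY a).ge))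

end Pool.Agent.Q193.LT
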